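import Mathlib

/-!
# Balls are preserved by maps that are local isomorphisms and injective on a slightly larger ball
-/

set_option autoImplicit false

namespace Pool.Agent.H43R3.RW

variable {V V' : Type} {G : SimpleGraph V} {G' : SimpleGraph V'}

/-- the ball of radius `r` around `v` is isomorphic to the rooted graph `(F, o)` -/
def Bp {V : Type} (G : SimpleGraph V) (v : V) (r k : ℕ) (F : SimpleGraph (Fin k)) (o : Fin k) :
    Prop :=
  ∃ e : {w : V // G.dist v w ≤ r} ≃ Fin k,
    (∀ a : {w : V // G.dist v w ≤ r}, (a.1 = v ↔ e a = o)) ∧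
    (∀ a b : {w : V // G.dist v w ≤ r}, (G.Adj a.1 b.1 ↔ F.Adj (e a) (e b)))

theorem dist_map_le (hG : G.Connected) (f : V → V') (hom : ∀ a b, G.Adj a b → G'.Adj (f a) (f b))
    (u v : V) : G'.dist (f u) (f v) ≤ G.dist u v := by
  obtain ⟨p, hp⟩ := hG.exists_walk_length_eq_dist u v
  let φ : G →g G' := ⟨f, fun {a b} h => hom a b h⟩
  have := SimpleGraph.dist_le (p.map φ)
  rw [SimpleGraph.Walk.length_map, hp] at this
  exact this

theorem lift_walk (f : V → V') (lift : ∀ a b', G'.Adj (f a) b' → ∃ b, G.Adj a b ∧ f b = b')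
    {x' y' : V'} (p : G'.Walk x' y') :
    ∀ x, f x = x' → ∃ y, f y = y' ∧ ∃ q : G.Walk x y, q.length = p.length := by
  induction p with
  | nil => exact fun x hx => ⟨x, hx, SimpleGraph.Walk.nil, rfl⟩
  | cons h p ih =>
    intro x hx
    rw [← hx] at h
    obtain ⟨b, hb, hfb⟩ := lift x _ h
    obtain ⟨y, hy, q, hq⟩ := ih b hfb
    exact ⟨y, hy, SimpleGraph.Walk.cons hb q, by simp [hq]⟩

theorem ball_iso (hG : G.Connected) (hG' : G'.Connected) (f : V → V')
    (hom : ∀ a b, G.Adj a b → G'.Adj (f a) (f b))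
    (lift : ∀ a b', G'.Adj (f a) b' → ∃ b, G.Adj a b ∧ f b = b') (v : V) (r : ℕ)
    (inj : ∀ a b, G.dist v a ≤ r + 1 → G.dist v b ≤ r + 1 → f a = f b → a = b)
    (k : ℕ) (F : SimpleGraph (Fin k)) (o : Fin k) : Bp G v r k F o ↔ Bp G' (f v) r k F o := by
  have hmap : ∀ a, G.dist v a ≤ r → G'.dist (f v) (f a) ≤ r := fun a ha =>
    (dist_map_le hG f hom v a).trans ha
  let φ : {w : V // G.dist v w ≤ r} → {w : V' // G'.dist (f v) w ≤ r} := fun a => ⟨f a.1, hmap _ a.2⟩
  have hφi : Function.Injective φ := by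
    intro a b h
    have := congrArg (fun z => z.1) h
    exact Subtype.ext (inj a.1 b.1 (a.2.trans (Nat.le_succ _)) (b.2.trans (Nat.le_succ _)) this)
  have hφs : Function.Surjective φ := by
    rintro ⟨w', hw'⟩
    obtain ⟨p, hp⟩ := hG'.exists_walk_length_eq_dist (f v) w'
    obtain ⟨y, hy, q, hq⟩ := lift_walk f lift p v rfl
    refine ⟨⟨y, ?_⟩, Subtype.ext hy⟩
    have := SimpleGraph.dist_le q
    omega
  let ψ : {w : V // G.dist v w ≤ r} ≃ {w : V' // G'.dist (f v) w ≤ r} :=
    Equiv.ofBijective φ ⟨hφi, hφs⟩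
  have hroot : ∀ a, (ψ a).1 = f v ↔ a.1 = v := by
    intro a
    constructor
    · intro h
      exact inj a.1 v (a.2.trans (Nat.le_succ _)) (by simp) h
    · intro h
      show f a.1 = f v
      rw [h]
  have hadj : ∀ a b, G'.Adj (ψ a).1 (ψ b).1 ↔ G.Adj a.1 b.1 := by
    intro a b
    constructor
    · intro h
      obtain ⟨b1, hb1, hb2⟩ := lift a.1 _ h
      have hd : G.dist v b1 ≤ r + 1 := by
        obtain ⟨p, hp⟩ := hG.exists_walk_length_eq_dist v a.1
        have h3 := SimpleGraph.dist_le (p.concat hb1)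
        rw [SimpleGraph.Walk.length_concat] at h3
        have := a.2
        omega
      have h4 : b1 = b.1 := inj b1 b.1 hd (b.2.trans (Nat.le_succ _)) hb2
      rw [← h4]; exact hb1
    · intro h
      exact hom _ _ h
  constructor
  · rintro ⟨e, h1, h2⟩
    refine ⟨ψ.symm.trans e, ?_, ?_⟩
    · intro a
      rw [Equiv.trans_apply, ← h1, ← hroot, Equiv.apply_symm_apply]
    · intro a b
      rw [Equiv.trans_apply, Equiv.trans_apply, ← h2, ← hadj, Equiv.apply_symm_apply,
        Equiv.apply_symm_apply]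
  · rintro ⟨e, h1, h2⟩
    refine ⟨ψ.trans e, ?_, ?_⟩
    · intro a
      rw [Equiv.trans_apply, ← h1, hroot]
    · intro a b
      rw [Equiv.trans_apply, Equiv.trans_apply, ← h2, hadj]

end Pool.Agent.H43R3.RW
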