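import Pool.Agent.H43R3.RW.Cover

set_option autoImplicit false

namespace Pool.Agent.H43R3.RW

section

variable {Γ : Type} [Group Γ] {d : ℕ} (g : Fin d → Γ) (σ : Fin d → Γ → Bool)

theorem reach_core {M : ℕ} (hM : 0 < M) (e : SE Γ d) (ω ω' : Γ × Bool) (b b' : Bool)
    (h : ω = ssrc e ∨ ω = stgt g σ e) (h' : ω' = ssrc e ∨ ω' = stgt g σ e) :
    (GG g σ M).Reachable (Sum.inl (ω, b)) (Sum.inl (ω', b')) := by
  have h1 : (GG g σ M).Adj (Sum.inl (ω, b)) (Sum.inr (e, ⟨0, hM⟩)) := h
  have h2 : (GG g σ M).Adj (Sum.inr (e, ⟨0, hM⟩)) (Sum.inl (ω', b')) := h'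
  exact h1.reachable.trans h2.reachable

theorem connected_GG {M : ℕ} (hM : 0 < M) (hg : Subgroup.closure (Set.range g) = ⊤) :
    (GG g σ M).Connected := by
  have hstep : ∀ x : Γ, x ∈ Subgroup.closure (Set.range g) → ∀ h : Γ,
      (GG g σ M).Reachable (Sum.inl ((h, false), false)) (Sum.inl ((x * h, false), false)) := by
    intro x hx
    induction hx using Subgroup.closure_induction with
    | mem x hx =>
      obtain ⟨i, rfl⟩ := hx
      intro h
      have r1 := reach_core g σ hM (Sum.inl (h, false, i)) (h, false)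
        (stgt g σ (Sum.inl (h, false, i))) false false (Or.inl rfl) (Or.inr rfl)
      have r2 := reach_core g σ hM (Sum.inr (g i * h)) (stgt g σ (Sum.inl (h, false, i)))
        (g i * h, false) false false (by
          show (g i * h, xor false (σ i h)) = (g i * h, false) ∨
            (g i * h, xor false (σ i h)) = (g i * h, true)
          cases (σ i h)
          · left; rfl
          · right; rfl) (Or.inl rfl)
      exact r1.trans r2
    | one => intro h; rw [one_mul]
    | mul x y _ _ hx hy =>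
      intro h
      rw [mul_assoc]
      exact (hy h).trans (hx (y * h))
    | inv x _ hx =>
      intro h
      have := (hx (x⁻¹ * h)).symm
      rwa [mul_inv_cancel_left] at this
  have hcore : ∀ (ω : Γ × Bool) (b : Bool),
      (GG g σ M).Reachable (Sum.inl ((1, false), false)) (Sum.inl (ω, b)) := by
    rintro ⟨h, j⟩ b
    have r1 := hstep h (by rw [hg]; trivial) 1
    rw [mul_one] at r1
    have r2 := reach_core g σ hM (Sum.inr h) (h, false) (h, j) false b (Or.inl rfl) (by
      cases j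
      · left; rfl
      · right; rfl)
    exact r1.trans r2
  have hall : ∀ v, (GG g σ M).Reachable (Sum.inl ((1, false), false)) v := by
    rintro (⟨ω, b⟩ | ⟨e, k⟩)
    · exact hcore ω b
    · have h2 : (GG g σ M).Adj (Sum.inl (ssrc e, true)) (Sum.inr (e, k)) := Or.inl rfl
      exact (hcore _ _).trans h2.reachable
  refine SimpleGraph.Connected.mk ?_
  · intro u v
    exact (hall u).symm.trans (hall v)

theorem degree_GG (M : ℕ) (v : GV (Γ × Bool) (SE Γ d) M) :
    ((GG g σ M).neighborSet v).ncard ≤ (2 * d + 1) * M + 4 := by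
  rcases v with ⟨⟨h, j⟩, b⟩ | ⟨e, k⟩
  · let φ : ((Fin d ⊕ Fin d) ⊕ Unit) × Fin M → GV (Γ × Bool) (SE Γ d) M := fun z => match z with
      | (Sum.inl (Sum.inl i), k) => Sum.inr (Sum.inl (h, j, i), k)
      | (Sum.inl (Sum.inr i), k) =>
        Sum.inr (Sum.inl ((g i)⁻¹ * h, xor j (σ i ((g i)⁻¹ * h)), i), k)
      | (Sum.inr _, k) => Sum.inr (Sum.inr h, k)
    have hsub : (GG g σ M).neighborSet (Sum.inl ((h, j), b)) ⊆ Set.range φ := by
      rintro (c | ⟨⟨h', j', i⟩ | h', k⟩) hv
      · exact hv.elim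
      · have h1 : (h, j) = (h', j') ∨ (h, j) = (g i * h', xor j' (σ i h')) := hv
        rcases h1 with h1 | h1
        · rw [Prod.mk.injEq] at h1
          exact ⟨(Sum.inl (Sum.inl i), k), by simp only [φ]; rw [h1.1, h1.2]⟩
        · rw [Prod.mk.injEq] at h1
          refine ⟨(Sum.inl (Sum.inr i), k), ?_⟩
          simp only [φ]
          rw [h1.1, h1.2]
          simp
      · have h1 : (h, j) = (h', false) ∨ (h, j) = (h', true) := hv
        have hh : h = h' := by
          rcases h1 with h1 | h1 <;> exact congrArg Prod.fst h1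
        exact ⟨(Sum.inr (), k), by simp only [φ]; rw [hh]⟩
    calc _ ≤ (Set.range φ).ncard := Set.ncard_le_ncard hsub (Set.finite_range φ)
      _ ≤ Fintype.card (((Fin d ⊕ Fin d) ⊕ Unit) × Fin M) := by
          rw [← Set.image_univ]
          refine (Set.ncard_image_le Set.finite_univ).trans ?_
          rw [Set.ncard_univ, Nat.card_eq_fintype_card]
      _ ≤ _ := by
          simp only [Fintype.card_prod, Fintype.card_sum, Fintype.card_fin, Fintype.card_unit]
          nlinarith
  · let φ : Bool × Bool → GV (Γ × Bool) (SE Γ d) M := fun z =>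
      Sum.inl (if z.1 then ssrc e else stgt g σ e, z.2)
    have hsub : (GG g σ M).neighborSet (Sum.inr (e, k)) ⊆ Set.range φ := by
      rintro (⟨ω, c⟩ | y) hv
      · have h1 : ω = ssrc e ∨ ω = stgt g σ e := hv
        rcases h1 with h1 | h1
        · exact ⟨(true, c), by simp [φ, h1]⟩
        · exact ⟨(false, c), by simp [φ, h1]⟩
      · exact hv.elim
    calc _ ≤ (Set.range φ).ncard := Set.ncard_le_ncard hsub (Set.finite_range φ)
      _ ≤ Fintype.card (Bool × Bool) := by
          rw [← Set.image_univ]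
          refine (Set.ncard_image_le Set.finite_univ).trans ?_
          rw [Set.ncard_univ, Nat.card_eq_fintype_card]
      _ ≤ _ := by
          simp only [Fintype.card_prod, Fintype.card_bool]
          omega

end

section

variable {Γ : Type} [Group Γ] {d R : ℕ} (ρ : FreeGroup (Fin d) →* Γ) (σ : Fin d → Γ → Bool)

theorem rho_ne_one (hR : 2 ≤ R) (hρ : ∀ x : FreeGroup (Fin d), x.norm ≤ R → ρ x = 1 → x = 1)
    (i : Fin d) : ρ (FreeGroup.of i) ≠ 1 := by
  intro h
  have := hρ _ (by rw [FreeGroup.norm_of]; omega) h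
  have h1 := congrArg FreeGroup.norm this
  rw [FreeGroup.norm_of, FreeGroup.norm_one] at h1
  omega

theorem rho_mul_ne_one (hR : 2 ≤ R) (hρ : ∀ x : FreeGroup (Fin d), x.norm ≤ R → ρ x = 1 → x = 1)
    (i i' : Fin d) : ρ (FreeGroup.of i) * ρ (FreeGroup.of i') ≠ 1 := by
  intro h
  rw [← map_mul] at h
  have h2 := FreeGroup.norm_mul_le (FreeGroup.of i) (FreeGroup.of i')
  rw [FreeGroup.norm_of, FreeGroup.norm_of] at h2
  have := hρ _ (by omega) h
  -- count the total exponent
  let χ : FreeGroup (Fin d) →* Multiplicative ℤ :=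
    FreeGroup.lift (fun _ => Multiplicative.ofAdd (1 : ℤ))
  have h3 := congrArg χ this
  simp only [χ, map_mul, FreeGroup.lift_apply_of, map_one] at h3
  exact absurd h3 (by decide)

theorem rho_inj (hR : 2 ≤ R) (hρ : ∀ x : FreeGroup (Fin d), x.norm ≤ R → ρ x = 1 → x = 1)
    (i i' : Fin d) (h : ρ (FreeGroup.of i) = ρ (FreeGroup.of i')) : i = i' := by
  have h1 : ρ (FreeGroup.of i * (FreeGroup.of i')⁻¹) = 1 := by
    rw [map_mul, map_inv, h, mul_inv_cancel]
  have h2 := FreeGroup.norm_mul_le (FreeGroup.of i) ((FreeGroup.of i')⁻¹)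
  rw [FreeGroup.norm_inv_eq, FreeGroup.norm_of, FreeGroup.norm_of] at h2
  have h3 := hρ _ (by omega) h1
  exact FreeGroup.of_injective (mul_inv_eq_one.1 h3)

theorem ne_GG (hR : 2 ≤ R) (hρ : ∀ x : FreeGroup (Fin d), x.norm ≤ R → ρ x = 1 → x = 1)
    (e : SE Γ d) : ssrc e ≠ stgt (fun i => ρ (FreeGroup.of i)) σ e := by
  rcases e with ⟨h, j, i⟩ | h
  · intro heq
    have h1 : h = ρ (FreeGroup.of i) * h := congrArg Prod.fst heq
    exact rho_ne_one ρ hR hρ i (mul_eq_right.1 h1.symm)
  · intro heq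
    have h1 : false = true := congrArg Prod.snd heq
    cases h1

theorem inj_GG (hR : 2 ≤ R) (hρ : ∀ x : FreeGroup (Fin d), x.norm ≤ R → ρ x = 1 → x = 1)
    (e e' : SE Γ d) (h : s(ssrc e, stgt (fun i => ρ (FreeGroup.of i)) σ e) =
      s(ssrc e', stgt (fun i => ρ (FreeGroup.of i)) σ e')) : e = e' := by
  rw [Sym2.eq_iff] at h
  rcases e with ⟨x, j, i⟩ | x <;> rcases e' with ⟨x', j', i'⟩ | x'
  · rcases h with ⟨h1, h2⟩ | ⟨h1, h2⟩
    · have h3 : (x, j) = (x', j') := h1
      rw [Prod.mk.injEq] at h3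
      obtain ⟨rfl, rfl⟩ := h3
      have h4 : ρ (FreeGroup.of i) * x = ρ (FreeGroup.of i') * x := congrArg Prod.fst h2
      have h5 := rho_inj ρ hR hρ i i' (mul_right_cancel h4)
      rw [h5]
    · have h3 : x = ρ (FreeGroup.of i') * x' := congrArg Prod.fst h1
      have h4 : ρ (FreeGroup.of i) * x = x' := congrArg Prod.fst h2
      rw [h3, ← mul_assoc] at h4
      exact absurd (mul_eq_right.1 h4) (rho_mul_ne_one ρ hR hρ i i')
  · exfalso
    have hxx : ρ (FreeGroup.of i) * x = x := by
      rcases h with ⟨h1, h2⟩ | ⟨h1, h2⟩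
      · have h3 : x = x' := congrArg Prod.fst h1
        have h4 : ρ (FreeGroup.of i) * x = x' := congrArg Prod.fst h2
        rw [h4, h3]
      · have h3 : x = x' := congrArg Prod.fst h1
        have h4 : ρ (FreeGroup.of i) * x = x' := congrArg Prod.fst h2
        rw [h4, h3]
    exact rho_ne_one ρ hR hρ i (mul_eq_right.1 hxx)
  · exfalso
    have hxx : ρ (FreeGroup.of i') * x' = x' := by
      rcases h with ⟨h1, h2⟩ | ⟨h1, h2⟩
      · have h3 : x = x' := congrArg Prod.fst h1
        have h4 : x = ρ (FreeGroup.of i') * x' := congrArg Prod.fst h2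
        rw [← h4, h3]
      · have h3 : x = ρ (FreeGroup.of i') * x' := congrArg Prod.fst h1
        have h4 : x = x' := congrArg Prod.fst h2
        rw [← h3, h4]
    exact rho_ne_one ρ hR hρ i' (mul_eq_right.1 hxx)
  · have hxx : x = x' := by
      rcases h with ⟨h1, h2⟩ | ⟨h1, h2⟩ <;> exact congrArg Prod.fst h1
    rw [hxx]

/-- the ball around a vertex only depends on its type -/
theorem ball_GG {M : ℕ} (hM : 0 < M) (hsurj : Function.Surjective ρ) {r : ℕ} (hR : 2 * (r + 1) ≤ R)
    (hρ : ∀ x : FreeGroup (Fin d), x.norm ≤ R → ρ x = 1 → x = 1)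
    (h0 : Γ) (t : GV (Unit × Bool) (SE Unit d) M)
    (k : ℕ) (F : SimpleGraph (Fin k)) (o : Fin k) :
    Bp (GG (fun i => ρ (FreeGroup.of i)) σ M) (mb (fun _ => h0) t) r k F o ↔
      Bp (UG d M) (mb (fun _ => 1) t) r k F o := by
  have hU : (UG d M).Connected := connected_GG _ _ hM (FreeGroup.closure_range_of _)
  have hG : (GG (fun i => ρ (FreeGroup.of i)) σ M).Connected := by
    refine connected_GG _ _ hM ?_
    have h1 : Set.range (fun i => ρ (FreeGroup.of i)) =
        ρ '' (Set.range (FreeGroup.of : Fin d → FreeGroup (Fin d))) := by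
      rw [← Set.range_comp]; rfl
    rw [h1, ← MonoidHom.map_closure, FreeGroup.closure_range_of, ← MonoidHom.range_eq_map,
      MonoidHom.range_eq_top]
    exact hsurj
  rw [← cov_type ρ σ M h0 t]
  refine (ball_iso hU hG (cov ρ σ M h0) (cov_hom ρ σ M h0) (cov_lift ρ σ M h0) _ r ?_ k F o).symm
  have hnorm : ∀ a, (UG d M).dist (mb (fun _ => 1) t) a ≤ r + 1 → (base a).norm ≤ r + 1 := by
    intro a ha
    obtain ⟨p, hp⟩ := hU.exists_walk_length_eq_dist (mb (fun _ => (1 : FreeGroup (Fin d))) t) a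
    have h2 := base_walk M p
    have h3 : (base (mb (fun _ => (1 : FreeGroup (Fin d))) t)) = 1 := by
      rcases t with ⟨⟨⟨⟩, j⟩, b⟩ | ⟨⟨⟨⟩, j, i⟩ | ⟨⟩, k⟩ <;> rfl
    rw [h3, FreeGroup.norm_one] at h2
    omega
  intro a b ha hb hab
  apply cov_inj ρ σ M h0 a b hab
  have h4 := cov_base ρ σ M h0 a
  rw [hab, cov_base] at h4
  have h5 : ρ (base a * (base b)⁻¹) = 1 := by
    rw [map_mul, map_inv, ← mul_right_cancel h4, mul_inv_cancel]
  have h6 := FreeGroup.norm_mul_le (base a) (base b)⁻¹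
  rw [FreeGroup.norm_inv_eq] at h6
  have h7 := hnorm a ha
  have h8 := hnorm b hb
  exact mul_inv_eq_one.1 (hρ _ (by omega) h5)

end

end Pool.Agent.H43R3.RW
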