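import Mathlib

/-!
# Finite quotients of free groups that are injective on large balls
-/

set_option autoImplicit false

namespace Pool.Agent.H43R3.RW

/-- ball of radius `R` in the free group of rank `d` -/
abbrev FBall (d R : ℕ) : Type := {g : FreeGroup (Fin d) // g.norm ≤ R}

theorem finite_FBall (d R : ℕ) : Finite (FBall d R) := by
  have h := List.finite_length_le (Fin d × Bool) R
  have hf : Finite {l : List (Fin d × Bool) // l.length ≤ R} := h.to_subtype
  refine Finite.of_injective
    (fun g : FBall d R => (⟨g.1.toWord, g.2⟩ : {l : List (Fin d × Bool) // l.length ≤ R})) ?_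
  intro a b hab
  have : a.1.toWord = b.1.toWord := congrArg (fun z => z.1) hab
  exact Subtype.ext (FreeGroup.toWord_injective this)

/-- partial left translation on the ball -/
noncomputable def eP (d R : ℕ) (i : Fin d) :
    {x : FBall d R // (FreeGroup.of i * x.1).norm ≤ R} ≃
      {x : FBall d R // ((FreeGroup.of i)⁻¹ * x.1).norm ≤ R} where
  toFun x := ⟨⟨FreeGroup.of i * x.1.1, x.2⟩, by
    simpa using x.1.2⟩
  invFun x := ⟨⟨(FreeGroup.of i)⁻¹ * x.1.1, x.2⟩, by
    simpa using x.1.2⟩
  left_inv x := by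
    apply Subtype.ext
    apply Subtype.ext
    simp
  right_inv x := by
    apply Subtype.ext
    apply Subtype.ext
    simp

theorem exists_perm (d R : ℕ) (i : Fin d) : ∃ π : Equiv.Perm (FBall d R),
    ∀ x : FBall d R, (FreeGroup.of i * x.1).norm ≤ R → (π x).1 = FreeGroup.of i * x.1 := by
  classical
  have := finite_FBall d R
  have hft : Fintype (FBall d R) := Fintype.ofFinite _
  refine ⟨(eP d R i).extendSubtype, ?_⟩
  intro x h
  rw [Equiv.extendSubtype_apply_of_mem (eP d R i) x h]
  rfl

noncomputable def pP (d R : ℕ) (i : Fin d) : Equiv.Perm (FBall d R) := (exists_perm d R i).choose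

theorem pP_apply {d R : ℕ} (i : Fin d) (x : FBall d R) (h : (FreeGroup.of i * x.1).norm ≤ R) :
    (pP d R i x).1 = FreeGroup.of i * x.1 := (exists_perm d R i).choose_spec x h

theorem pP_inv_apply {d R : ℕ} (i : Fin d) (x : FBall d R)
    (h : ((FreeGroup.of i)⁻¹ * x.1).norm ≤ R) :
    ((pP d R i)⁻¹ x).1 = (FreeGroup.of i)⁻¹ * x.1 := by
  have h1 : (pP d R i)⁻¹ x = (⟨(FreeGroup.of i)⁻¹ * x.1, h⟩ : FBall d R) := by
    rw [Equiv.Perm.inv_eq_iff_eq]
    apply Subtype.ext
    rw [pP_apply i _ (by simpa using x.2)]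
    simp
  rw [h1]

noncomputable def rho (d R : ℕ) : FreeGroup (Fin d) →* Equiv.Perm (FBall d R) :=
  FreeGroup.lift (pP d R)

theorem rho_word {d R : ℕ} (L : List (Fin d × Bool)) (hL : L.length ≤ R) :
    ((rho d R (FreeGroup.mk L)) ⟨1, by simp⟩).1 = FreeGroup.mk L := by
  induction L with
  | nil =>
    have : (FreeGroup.mk [] : FreeGroup (Fin d)) = 1 := rfl
    rw [this, map_one]
    rfl
  | cons a L ih =>
    obtain ⟨i, b⟩ := a
    have hL' : L.length ≤ R := (Nat.le_succ _).trans hL
    have h1 : (FreeGroup.mk ((i, b) :: L) : FreeGroup (Fin d)) =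
        FreeGroup.mk [(i, b)] * FreeGroup.mk L := by
      rw [FreeGroup.mul_mk]; rfl
    have hn : (FreeGroup.mk [(i, b)] * FreeGroup.mk L : FreeGroup (Fin d)).norm ≤ R := by
      rw [← h1]; exact (FreeGroup.norm_mk_le).trans hL
    rw [h1, _root_.map_mul, Equiv.Perm.mul_apply]
    have ih' := ih hL'
    cases b with
    | true =>
      have h2 : (FreeGroup.mk [(i, true)] : FreeGroup (Fin d)) = FreeGroup.of i := rfl
      have h3 : rho d R (FreeGroup.of i) = pP d R i := by simp [rho]
      rw [h2] at hn ⊢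
      rw [h3, pP_apply i _ (by rw [ih']; exact hn), ih']
    | false =>
      have h2 : (FreeGroup.mk [(i, false)] : FreeGroup (Fin d)) = (FreeGroup.of i)⁻¹ := rfl
      have h3 : rho d R (FreeGroup.of i)⁻¹ = (pP d R i)⁻¹ := by simp [rho]
      rw [h2] at hn ⊢
      rw [h3, pP_inv_apply i _ (by rw [ih']; exact hn), ih']

theorem rho_eq_one {d R : ℕ} {g : FreeGroup (Fin d)} (hg : g.norm ≤ R) (h : rho d R g = 1) :
    g = 1 := by
  have h1 := rho_word (d := d) (R := R) g.toWord hg
  rw [FreeGroup.mk_toWord, h, Equiv.Perm.one_apply] at h1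
  exact h1.symm

/-- For every `R` there is a finite quotient of the free group of rank `d` that is injective near
the identity up to radius `R`. -/
theorem exists_quot (d R : ℕ) : ∃ (Γ : Type) (_ : Group Γ) (_ : Fintype Γ)
    (ρ : FreeGroup (Fin d) →* Γ), Function.Surjective ρ ∧
      ∀ g : FreeGroup (Fin d), g.norm ≤ R → ρ g = 1 → g = 1 := by
  classical
  have := finite_FBall d R
  have hf : Finite (Equiv.Perm (FBall d R)) := by
    have : Fintype (FBall d R) := Fintype.ofFinite _
    infer_instance
  refine ⟨(rho d R).range, inferInstance, Fintype.ofFinite _, (rho d R).rangeRestrict,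
    (rho d R).rangeRestrict_surjective, ?_⟩
  intro g hg h
  apply rho_eq_one hg
  have := congrArg (fun z => z.1) h
  simpa using this

end Pool.Agent.H43R3.RW
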