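import Pool.Agent.H43R3.RW.Signs
import Pool.Agent.H43R3.RW.Ball
import Pool.Agent.H43R3.RW.Quot

set_option autoImplicit false

namespace Pool.Agent.H43R3.RW

/-- the twisted gadget graph over the Schreier graph -/
def GG {Γ : Type} [Group Γ] {d : ℕ} (g : Fin d → Γ) (σ : Fin d → Γ → Bool) (M : ℕ) :
    SimpleGraph (GV (Γ × Bool) (SE Γ d) M) := gad ssrc (stgt g σ) M

/-- base point of a vertex -/
def base {Γ : Type} {d M : ℕ} : GV (Γ × Bool) (SE Γ d) M → Γ := fun v => match v with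
  | Sum.inl c => c.1.1
  | Sum.inr (Sum.inl x, _) => x.1
  | Sum.inr (Sum.inr h, _) => h

/-- change of base -/
def mb {A B : Type} {d M : ℕ} (φ : A → B) :
    GV (A × Bool) (SE A d) M → GV (B × Bool) (SE B d) M := fun v => match v with
  | Sum.inl c => Sum.inl ((φ c.1.1, c.1.2), c.2)
  | Sum.inr (Sum.inl x, k) => Sum.inr (Sum.inl (φ x.1, x.2.1, x.2.2), k)
  | Sum.inr (Sum.inr h, k) => Sum.inr (Sum.inr (φ h), k)

/-- a vertex is determined by its base point and its type -/
def splitE (Γ : Type) (d M : ℕ) :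
    GV (Γ × Bool) (SE Γ d) M ≃ Γ × GV (Unit × Bool) (SE Unit d) M where
  toFun v := (base v, mb (fun _ => ()) v)
  invFun p := mb (fun _ => p.1) p.2
  left_inv v := by
    rcases v with ⟨⟨h, j⟩, b⟩ | ⟨⟨h, j, i⟩ | h, k⟩ <;> rfl
  right_inv p := by
    obtain ⟨h, v⟩ := p
    rcases v with ⟨⟨⟨⟩, j⟩, b⟩ | ⟨⟨⟨⟩, j, i⟩ | ⟨⟩, k⟩ <;> rfl

section

variable {Γ : Type} [Group Γ] {d : ℕ} (ρ : FreeGroup (Fin d) →* Γ) (σ : Fin d → Γ → Bool)

/-- the permutation of `Γ × Bool` given by a generator -/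
def sPerm (i : Fin d) : Equiv.Perm (Γ × Bool) where
  toFun p := (ρ (FreeGroup.of i) * p.1, xor p.2 (σ i p.1))
  invFun p := ((ρ (FreeGroup.of i))⁻¹ * p.1, xor p.2 (σ i ((ρ (FreeGroup.of i))⁻¹ * p.1)))
  left_inv p := by
    simp
  right_inv p := by
    simp

def sAct : FreeGroup (Fin d) →* Equiv.Perm (Γ × Bool) := FreeGroup.lift (sPerm ρ σ)

theorem sAct_fst (x : FreeGroup (Fin d)) : ∀ p, (sAct ρ σ x p).1 = ρ x * p.1 := by
  induction x using FreeGroup.induction_on with
  | C1 => intro p; simp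
  | of i =>
    intro p
    simp [sAct, sPerm]
  | inv_of i _ =>
    intro p
    simp only [sAct, map_inv, FreeGroup.lift_apply_of]
    rfl
  | mul x y hx hy =>
    intro p
    rw [map_mul, Equiv.Perm.mul_apply, hx, hy, map_mul, mul_assoc]

/-- the sheet function -/
def sheet (h0 : Γ) (x : FreeGroup (Fin d)) : Bool := (sAct ρ σ x (h0, false)).2

theorem sheet_one (h0 : Γ) : sheet ρ σ h0 1 = false := by
  simp [sheet]

theorem sheet_mul (h0 : Γ) (i : Fin d) (x : FreeGroup (Fin d)) :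
    sheet ρ σ h0 (FreeGroup.of i * x) = xor (sheet ρ σ h0 x) (σ i (ρ x * h0)) := by
  unfold sheet
  rw [map_mul, Equiv.Perm.mul_apply]
  have h1 : sAct ρ σ (FreeGroup.of i) = sPerm ρ σ i := by simp [sAct]
  rw [h1]
  have h2 := sAct_fst ρ σ x (h0, false)
  simp only at h2
  show xor _ (σ i _) = _
  rw [h2]

/-- the covering map -/
def cov (M : ℕ) (h0 : Γ) : GV (FreeGroup (Fin d) × Bool) (SE (FreeGroup (Fin d)) d) M →
    GV (Γ × Bool) (SE Γ d) M := fun v => match v with
  | Sum.inl c => Sum.inl ((ρ c.1.1 * h0, xor c.1.2 (sheet ρ σ h0 c.1.1)), c.2)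
  | Sum.inr (Sum.inl x, k) => Sum.inr (Sum.inl (ρ x.1 * h0, xor x.2.1 (sheet ρ σ h0 x.1), x.2.2), k)
  | Sum.inr (Sum.inr x, k) => Sum.inr (Sum.inr (ρ x * h0), k)

theorem cov_type (M : ℕ) (h0 : Γ) (t : GV (Unit × Bool) (SE Unit d) M) :
    cov ρ σ M h0 (mb (fun _ => 1) t) = mb (fun _ => h0) t := by
  rcases t with ⟨⟨⟨⟩, j⟩, b⟩ | ⟨⟨⟨⟩, j, i⟩ | ⟨⟩, k⟩
  · simp [cov, mb, sheet_one]
  · simp [cov, mb, sheet_one]
  · simp [cov, mb]

/-- the universal gadget graph -/
def UG (d M : ℕ) : SimpleGraph (GV (FreeGroup (Fin d) × Bool) (SE (FreeGroup (Fin d)) d) M) :=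
  GG (fun i => FreeGroup.of i) (fun _ _ => false) M

theorem cov_adj (M : ℕ) (h0 : Γ) (c : (FreeGroup (Fin d) × Bool) × Bool)
    (y : SE (FreeGroup (Fin d)) d × Fin M) (h : (UG d M).Adj (Sum.inl c) (Sum.inr y)) :
    (GG (fun i => ρ (FreeGroup.of i)) σ M).Adj (cov ρ σ M h0 (Sum.inl c))
      (cov ρ σ M h0 (Sum.inr y)) := by
  obtain ⟨⟨x, j⟩, b⟩ := c
  obtain ⟨⟨x', j', i⟩ | x', k⟩ := y
  · have h' : (x, j) = (x', j') ∨
        (x, j) = (FreeGroup.of i * x', xor j' false) := h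
    show (ρ x * h0, xor j (sheet ρ σ h0 x)) = (ρ x' * h0, xor j' (sheet ρ σ h0 x')) ∨
      (ρ x * h0, xor j (sheet ρ σ h0 x)) = (ρ (FreeGroup.of i) * (ρ x' * h0),
        xor (xor j' (sheet ρ σ h0 x')) (σ i (ρ x' * h0)))
    rcases h' with h' | h'
    · left
      rw [Prod.mk.injEq] at h'
      rw [h'.1, h'.2]
    · right
      rw [Prod.mk.injEq] at h'
      rw [h'.1, h'.2, sheet_mul, map_mul, mul_assoc]
      simp
  · have h' : (x, j) = (x', false) ∨ (x, j) = (x', true) := h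
    show (ρ x * h0, xor j (sheet ρ σ h0 x)) = (ρ x' * h0, false) ∨
      (ρ x * h0, xor j (sheet ρ σ h0 x)) = (ρ x' * h0, true)
    have hx : x = x' := by
      rcases h' with h' | h' <;> exact congrArg Prod.fst h'
    rw [hx]
    cases (xor j (sheet ρ σ h0 x'))
    · left; rfl
    · right; rfl

theorem cov_hom (M : ℕ) (h0 : Γ) (a b) (h : (UG d M).Adj a b) :
    (GG (fun i => ρ (FreeGroup.of i)) σ M).Adj (cov ρ σ M h0 a) (cov ρ σ M h0 b) := by
  rcases a with a | a <;> rcases b with b | b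
  · exact h.elim
  · exact cov_adj ρ σ M h0 a b h
  · exact (cov_adj ρ σ M h0 b a h.symm).symm
  · exact h.elim

theorem cov_lift (M : ℕ) (h0 : Γ) (a) (b' : GV (Γ × Bool) (SE Γ d) M)
    (h : (GG (fun i => ρ (FreeGroup.of i)) σ M).Adj (cov ρ σ M h0 a) b') :
    ∃ b, (UG d M).Adj a b ∧ cov ρ σ M h0 b = b' := by
  rcases a with ⟨⟨x, j⟩, b⟩ | ⟨e, k⟩
  · rcases b' with c' | ⟨⟨h', j', i⟩ | h', k'⟩
    · exact h.elim
    · have h1 : (ρ x * h0, xor j (sheet ρ σ h0 x)) = (h', j') ∨
          (ρ x * h0, xor j (sheet ρ σ h0 x)) = (ρ (FreeGroup.of i) * h', xor j' (σ i h')) := h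
      rcases h1 with h1 | h1
      · rw [Prod.mk.injEq] at h1
        refine ⟨Sum.inr (Sum.inl (x, j, i), k'), Or.inl rfl, ?_⟩
        simp only [cov]
        rw [h1.1, h1.2]
      · rw [Prod.mk.injEq] at h1
        have hh' : ρ ((FreeGroup.of i)⁻¹ * x) * h0 = h' := by
          rw [map_mul, mul_assoc, h1.1, map_inv, inv_mul_cancel_left]
        refine ⟨Sum.inr (Sum.inl ((FreeGroup.of i)⁻¹ * x, j, i), k'), Or.inr ?_, ?_⟩
        · show (x, j) = (FreeGroup.of i * ((FreeGroup.of i)⁻¹ * x), xor j false)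
          simp
        · simp only [cov]
          rw [hh']
          have h3 := sheet_mul ρ σ h0 i ((FreeGroup.of i)⁻¹ * x)
          rw [mul_inv_cancel_left, hh'] at h3
          have h4 := h1.2
          rw [h3] at h4
          have h5 : xor j (sheet ρ σ h0 ((FreeGroup.of i)⁻¹ * x)) = j' := by
            revert h4
            cases j <;> cases j' <;> cases (sheet ρ σ h0 ((FreeGroup.of i)⁻¹ * x)) <;>
              cases (σ i h') <;> simp
          rw [h5]
    · have h1 : (ρ x * h0, xor j (sheet ρ σ h0 x)) = (h', false) ∨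
          (ρ x * h0, xor j (sheet ρ σ h0 x)) = (h', true) := h
      have hh : ρ x * h0 = h' := by
        rcases h1 with h1 | h1 <;> exact congrArg Prod.fst h1
      refine ⟨Sum.inr (Sum.inr x, k'), ?_, ?_⟩
      · show (x, j) = (x, false) ∨ (x, j) = (x, true)
        cases j
        · left; rfl
        · right; rfl
      · simp only [cov]
        rw [hh]
  · rcases b' with ⟨⟨h', j'⟩, b'⟩ | c'
    · rcases e with ⟨x, j, i⟩ | x
      · have h1 : (h', j') = (ρ x * h0, xor j (sheet ρ σ h0 x)) ∨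
            (h', j') = (ρ (FreeGroup.of i) * (ρ x * h0),
              xor (xor j (sheet ρ σ h0 x)) (σ i (ρ x * h0))) := h
        rcases h1 with h1 | h1
        · refine ⟨Sum.inl ((x, j), b'), Or.inl rfl, ?_⟩
          simp only [cov]
          rw [h1]
        · refine ⟨Sum.inl ((FreeGroup.of i * x, xor j false), b'), Or.inr rfl, ?_⟩
          simp only [cov]
          rw [h1, sheet_mul, map_mul, mul_assoc]
          simp
      · have h1 : (h', j') = (ρ x * h0, false) ∨ (h', j') = (ρ x * h0, true) := h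
        have hh : h' = ρ x * h0 := by
          rcases h1 with h1 | h1 <;> exact congrArg Prod.fst h1
        refine ⟨Sum.inl ((x, xor j' (sheet ρ σ h0 x)), b'), ?_, ?_⟩
        · show (x, xor j' (sheet ρ σ h0 x)) = (x, false) ∨ (x, xor j' (sheet ρ σ h0 x)) = (x, true)
          cases (xor j' (sheet ρ σ h0 x))
          · left; rfl
          · right; rfl
        · simp only [cov]
          rw [hh]
          simp
    · rcases e with x | x
      · exact h.elim
      · exact h.elim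

theorem cov_base (M : ℕ) (h0 : Γ) (a) : base (cov ρ σ M h0 a) = ρ (base a) * h0 := by
  rcases a with ⟨⟨x, j⟩, b⟩ | ⟨⟨x, j, i⟩ | x, k⟩ <;> rfl

theorem cov_inj (M : ℕ) (h0 : Γ) (a b) (h : cov ρ σ M h0 a = cov ρ σ M h0 b)
    (hb : base a = base b) : a = b := by
  rcases a with ⟨⟨x, j⟩, c⟩ | ⟨⟨x, j, i⟩ | x, k⟩ <;>
    rcases b with ⟨⟨x', j'⟩, c'⟩ | ⟨⟨x', j', i'⟩ | x', k'⟩ <;>
    simp only [base] at hb <;> subst hb <;> simp [cov] at h ⊢
  · exact h
  · exact h
  · exact h

theorem base_step (M : ℕ) (a b) (h : (UG d M).Adj a b) : (base b).norm ≤ (base a).norm + 1 := by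
  have key : ∀ (c : (FreeGroup (Fin d) × Bool) × Bool) (y : SE (FreeGroup (Fin d)) d × Fin M),
      (UG d M).Adj (Sum.inl c) (Sum.inr y) →
      (base (Sum.inr y : GV (FreeGroup (Fin d) × Bool) (SE (FreeGroup (Fin d)) d) M)).norm ≤
        (base (Sum.inl c : GV (FreeGroup (Fin d) × Bool) (SE (FreeGroup (Fin d)) d) M)).norm + 1 ∧
      (base (Sum.inl c : GV (FreeGroup (Fin d) × Bool) (SE (FreeGroup (Fin d)) d) M)).norm ≤
        (base (Sum.inr y : GV (FreeGroup (Fin d) × Bool) (SE (FreeGroup (Fin d)) d) M)).norm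
          + 1 := by
    rintro ⟨⟨x, j⟩, b⟩ ⟨⟨x', j', i⟩ | x', k⟩ h
    · have h' : (x, j) = (x', j') ∨ (x, j) = (FreeGroup.of i * x', xor j' false) := h
      simp only [base]
      rcases h' with h' | h'
      · rw [Prod.mk.injEq] at h'
        rw [h'.1]
        omega
      · rw [Prod.mk.injEq] at h'
        have h1 := FreeGroup.norm_mul_le (FreeGroup.of i) x'
        have h2 := FreeGroup.norm_mul_le ((FreeGroup.of i)⁻¹) (FreeGroup.of i * x')
        rw [inv_mul_cancel_left] at h2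
        rw [FreeGroup.norm_inv_eq] at h2
        rw [FreeGroup.norm_of] at h1 h2
        rw [h'.1]
        omega
    · have h' : (x, j) = (x', false) ∨ (x, j) = (x', true) := h
      simp only [base]
      have hx : x = x' := by
        rcases h' with h' | h' <;> exact congrArg Prod.fst h'
      rw [hx]
      omega
  rcases a with a | a <;> rcases b with b | b
  · exact h.elim
  · exact (key a b h).1
  · exact (key b a h.symm).2
  · exact h.elim

theorem base_walk (M : ℕ) {a b} (p : (UG d M).Walk a b) :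
    (base b).norm ≤ (base a).norm + p.length := by
  induction p with
  | nil => simp
  | cons h p ih =>
    have := base_step M _ _ h
    rw [SimpleGraph.Walk.length_cons]
    omega

end

end Pool.Agent.H43R3.RW
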