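import Pool.Agent.H43R3.RW.Lower

set_option autoImplicit false

namespace Pool.Agent.H43R3.RW

open Finset

variable {Ω E : Type} {src tgt : E → Ω} {M : ℕ} [Fintype Ω] [Fintype E]
  (H : SimpleGraph (GV Ω E M))

open Classical in
/-- ordered adjacent pairs in the core -/
noncomputable def cc : ℕ :=
  ∑ c : Ω × Bool, ∑ c' : Ω × Bool, if H.Adj (Sum.inl c) (Sum.inl c') then 1 else 0

theorem two_edges : 2 * H.edgeSet.ncard =
    cc H + 2 * (∑ x : E × Fin M, iN H x) + ∑ x : E × Fin M, jN H x := by
  classical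
  have h1 : H.edgeSet.ncard = H.edgeFinset.card := by
    rw [← SimpleGraph.coe_edgeFinset, Set.ncard_coe_finset]
  rw [h1, ← SimpleGraph.sum_degrees_eq_twice_card_edges]
  have h2 : ∀ v, H.degree v = ∑ w : GV Ω E M, if H.Adj v w then 1 else 0 := by
    intro v
    rw [← SimpleGraph.card_neighborFinset_eq_degree, SimpleGraph.neighborFinset_eq_filter,
      Finset.card_filter]
  simp only [h2]
  rw [Fintype.sum_sum_type]
  simp only [Fintype.sum_sum_type (α₁ := Ω × Bool) (α₂ := E × Fin M)]
  rw [Finset.sum_add_distrib, Finset.sum_add_distrib]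
  have h3 : ∑ c : Ω × Bool, ∑ x : E × Fin M, (if H.Adj (Sum.inl c) (Sum.inr x) then 1 else 0) =
      ∑ x : E × Fin M, iN H x := by
    rw [Finset.sum_comm]
    refine Finset.sum_congr rfl fun x _ => ?_
    unfold iN
    rw [Finset.card_filter]
    refine Finset.sum_congr rfl fun c _ => ?_
    simp only [H.adj_comm]
  have h4 : ∑ x : E × Fin M, ∑ c : Ω × Bool, (if H.Adj (Sum.inr x) (Sum.inl c) then 1 else 0) =
      ∑ x : E × Fin M, iN H x := by
    refine Finset.sum_congr rfl fun x _ => ?_
    unfold iN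
    rw [Finset.card_filter]
  have h5 : ∑ x : E × Fin M, ∑ x' : E × Fin M,
      (if H.Adj (Sum.inr x) (Sum.inr x') then 1 else 0) = ∑ x : E × Fin M, jN H x := by
    refine Finset.sum_congr rfl fun x _ => ?_
    unfold jN
    rw [Finset.card_filter]
  rw [h3, h4, h5]
  unfold cc
  ring

theorem sum_ch_le (hne : ∀ e, src e ≠ tgt e)
    (h2 : ∀ u v, (gad src tgt M).Adj u v → near H u v) :
    ∑ x : E × Fin M, ch H x ≤ 4 * (∑ x : E × Fin M, iN H x) + 2 * ∑ x : E × Fin M, jN H x := by
  classical
  have key : 2 * (∑ x : E × Fin M, ∑ x' : E × Fin M,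
      (if H.Adj (Sum.inr x) (Sum.inr x') then kap H x x' else 0)) ≤
      4 * ∑ x : E × Fin M, jN H x := by
    calc 2 * (∑ x : E × Fin M, ∑ x' : E × Fin M,
      (if H.Adj (Sum.inr x) (Sum.inr x') then kap H x x' else 0)) =
        (∑ x : E × Fin M, ∑ x' : E × Fin M,
          (if H.Adj (Sum.inr x) (Sum.inr x') then kap H x x' else 0)) +
        (∑ x : E × Fin M, ∑ x' : E × Fin M,
          (if H.Adj (Sum.inr x) (Sum.inr x') then kap H x' x else 0)) := by
          rw [two_mul]
          congr 1
          rw [Finset.sum_comm]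
          refine Finset.sum_congr rfl fun x _ => Finset.sum_congr rfl fun x' _ => ?_
          simp only [H.adj_comm]
      _ = ∑ x : E × Fin M, ∑ x' : E × Fin M,
          (if H.Adj (Sum.inr x) (Sum.inr x') then kap H x x' + kap H x' x else 0) := by
          rw [← Finset.sum_add_distrib]
          refine Finset.sum_congr rfl fun x _ => ?_
          rw [← Finset.sum_add_distrib]
          refine Finset.sum_congr rfl fun x' _ => ?_
          split_ifs <;> rfl
      _ ≤ ∑ x : E × Fin M, ∑ x' : E × Fin M,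
          (if H.Adj (Sum.inr x) (Sum.inr x') then 4 else 0) := by
          refine Finset.sum_le_sum fun x _ => Finset.sum_le_sum fun x' _ => ?_
          split_ifs with h
          · exact kap_add hne h2 h
          · exact le_rfl
      _ = 4 * ∑ x : E × Fin M, jN H x := by
          rw [Finset.mul_sum]
          refine Finset.sum_congr rfl fun x _ => ?_
          unfold jN
          rw [Finset.card_filter, Finset.mul_sum]
          refine Finset.sum_congr rfl fun x' _ => ?_
          split_ifs <;> rfl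
  have h3 : ∑ x : E × Fin M, ch H x = 4 * (∑ x : E × Fin M, iN H x) +
      ∑ x : E × Fin M, ∑ x' : E × Fin M,
      (if H.Adj (Sum.inr x) (Sum.inr x') then kap H x x' else 0) := by
    unfold ch
    rw [Finset.sum_add_distrib, Finset.mul_sum]
  omega

theorem pN_comm (ω ω' : Ω) : pN H ω ω' = pN H ω' ω := by
  classical
  unfold pN
  rw [Finset.sum_comm]
  refine Finset.sum_congr rfl fun b _ => Finset.sum_congr rfl fun c _ => ?_
  simp only [H.adj_comm]

open Classical in
theorem cc_ge (hne : ∀ e, src e ≠ tgt e)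
    (hinj : ∀ e e', s(src e, tgt e) = s(src e', tgt e') → e = e') :
    2 * (∑ ω : Ω, if absent H ω then 0 else 1) + 2 * ∑ e : E, pN H (src e) (tgt e) ≤ cc H := by
  have h1 : cc H = ∑ p : Ω × Ω, pN H p.1 p.2 := by
    unfold cc pN
    simp only [Fintype.sum_prod_type]
    refine Finset.sum_congr rfl fun ω _ => ?_
    rw [Finset.sum_comm]
  let φ : Ω ⊕ (E ⊕ E) → Ω × Ω := fun z => match z with
    | Sum.inl ω => (ω, ω)
    | Sum.inr (Sum.inl e) => (src e, tgt e)
    | Sum.inr (Sum.inr e) => (tgt e, src e)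
  have hφ : Function.Injective φ := by
    intro z z' h
    rcases z with ω | e | e <;> rcases z' with ω' | e' | e' <;> simp only [φ, Prod.mk.injEq] at h
    · rw [h.1]
    · exact absurd (h.1.symm.trans h.2) (hne e')
    · exact absurd (h.2.symm.trans h.1) (hne e')
    · exact absurd (h.1.trans h.2.symm) (hne e)
    · rw [hinj e e' (by rw [h.1, h.2])]
    · have : e = e' := hinj e e' (by rw [h.1, h.2, Sym2.eq_swap])
      subst this
      exact absurd h.1 (hne e)
    · exact absurd (h.2.trans h.1.symm) (hne e)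
    · have : e = e' := hinj e e' (by rw [h.1, h.2, Sym2.eq_swap])
      subst this
      exact absurd h.2 (hne e)
    · rw [hinj e e' (by rw [h.1, h.2])]
  have h2 : ∑ z : Ω ⊕ (E ⊕ E), pN H (φ z).1 (φ z).2 ≤ cc H := by
    rw [h1]
    calc ∑ z : Ω ⊕ (E ⊕ E), pN H (φ z).1 (φ z).2
        = ∑ p ∈ (univ : Finset (Ω ⊕ (E ⊕ E))).image φ, pN H p.1 p.2 := by
          rw [Finset.sum_image (fun a _ b _ h => hφ h)]
      _ ≤ _ := Finset.sum_le_sum_of_subset (Finset.subset_univ _)
  refine le_trans ?_ h2
  rw [Fintype.sum_sum_type, Fintype.sum_sum_type]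
  have h3 : ∀ e, pN H (φ (Sum.inr (Sum.inr e))).1 (φ (Sum.inr (Sum.inr e))).2 =
      pN H (src e) (tgt e) := fun e => pN_comm H _ _
  have h4 : ∀ e, pN H (φ (Sum.inr (Sum.inl e))).1 (φ (Sum.inr (Sum.inl e))).2 =
      pN H (src e) (tgt e) := fun e => rfl
  simp only [h3, h4]
  have h5 : 2 * (∑ ω : Ω, if absent H ω then 0 else 1) ≤
      ∑ ω : Ω, pN H (φ (Sum.inl ω)).1 (φ (Sum.inl ω)).2 := by
    rw [Finset.mul_sum]
    refine Finset.sum_le_sum fun ω _ => ?_
    show 2 * (if absent H ω then 0 else 1) ≤ pN H ω ω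
    unfold absent
    by_cases h : H.Adj (Sum.inl (ω, false)) (Sum.inl (ω, true))
    · have h' := h.symm
      unfold pN
      simp only [Fintype.sum_bool, h, h', if_true, not_true_eq_false, if_false]
      omega
    · simp [h]
  omega

open Classical in
/-- every rewiring of the gadget graph has many edges -/
theorem lower (hne : ∀ e, src e ≠ tgt e)
    (hinj : ∀ e e', s(src e, tgt e) = s(src e', tgt e') → e = e') (hM : 12 ≤ M)
    (h1 : ∀ u v, H.Adj u v → near (gad src tgt M) u v)
    (h2 : ∀ u v, (gad src tgt M).Adj u v → near H u v) :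
    (M + 2) * Fintype.card E + (∑ ω : Ω, if absent H ω then 0 else 1) +
      (∑ e : E, if absent H (src e) ∧ absent H (tgt e) then 1 else 0) ≤ H.edgeSet.ncard := by
  have a1 := two_edges H
  have a2 := sum_ch_le H hne h2
  have a3 := cc_ge H hne hinj
  have a4 : ∑ e : E, 4 * (M + 2 + if absent H (src e) ∧ absent H (tgt e) then 1 else 0) ≤
      ∑ e : E, (∑ k : Fin M, ch H (e, k) + 4 * pN H (src e) (tgt e)) :=
    Finset.sum_le_sum fun e _ => edge_bound hne hinj hM h1 h2 e
  rw [Finset.sum_add_distrib, ← Finset.mul_sum, ← Finset.mul_sum, ← Fintype.sum_prod_type',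
    Finset.sum_add_distrib] at a4
  simp only [Finset.sum_const, Finset.card_univ, smul_eq_mul, Prod.mk.eta] at a4
  have a5 : Fintype.card E * (M + 2) = (M + 2) * Fintype.card E := mul_comm _ _
  omega

end Pool.Agent.H43R3.RW
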