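import Pool.Agent.H43R3.RW.Transport
import Pool.Agent.H43R3.RW.Conn
import Pool.Agent.H43R3.RW.Lower2

set_option autoImplicit false

namespace Pool.Agent.H43R3.RW

open Filter Topology

section

variable {Γ : Type} [Group Γ] [Fintype Γ] {R : ℕ} (ρ : FreeGroup (Fin 5) →* Γ)
  (σ : Fin 5 → Γ → Bool)

theorem card_SE : Fintype.card (SE Γ 5) = 11 * Fintype.card Γ := by
  simp only [Fintype.card_sum, Fintype.card_prod, Fintype.card_bool, Fintype.card_fin]
  ring

theorem conn_rho (hsurj : Function.Surjective ρ) :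
    (GG (fun i => ρ (FreeGroup.of i)) σ 12).Connected := by
  refine connected_GG _ _ (by norm_num) ?_
  have h1 : Set.range (fun i => ρ (FreeGroup.of i)) =
      ρ '' (Set.range (FreeGroup.of : Fin 5 → FreeGroup (Fin 5))) := by
    rw [← Set.range_comp]; rfl
  rw [h1, ← MonoidHom.map_closure, FreeGroup.closure_range_of, ← MonoidHom.range_eq_map,
    MonoidHom.range_eq_top]
  exact hsurj

/-- rewirings of the frustrated graph are expensive -/
theorem lower_frustrated (hR : 2 ≤ R)
    (hρ : ∀ x : FreeGroup (Fin 5), x.norm ≤ R → ρ x = 1 → x = 1)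
    (hσ : ∀ s : Γ → Bool, Fintype.card Γ ≤ ((Finset.univ : Finset (Fin 5 × Γ)).filter
        (fun p => s (ρ (FreeGroup.of p.1) * p.2) = xor (s p.2) (σ p.1 p.2))).card)
    (H : SimpleGraph (GV (Γ × Bool) (SE Γ 5) 12))
    (h1 : ∀ u v, H.Adj u v → near (GG (fun i => ρ (FreeGroup.of i)) σ 12) u v)
    (h2 : ∀ u v, (GG (fun i => ρ (FreeGroup.of i)) σ 12).Adj u v → near H u v) :
    1551 * Fintype.card Γ ≤ 10 * H.edgeSet.ncard := by
  classical
  have a1 := lower H (ne_GG ρ σ hR hρ) (inj_GG ρ σ hR hρ) (le_refl 12) h1 h2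
  have a2 := frustrated (fun i => ρ (FreeGroup.of i)) σ hσ (absent H)
  rw [card_SE] at a1
  have a3 : (∑ ω : Γ × Bool, if absent H ω then 0 else 1) +
      (∑ e : SE Γ 5, if absent H (ssrc e) ∧
        absent H (stgt (fun i => ρ (FreeGroup.of i)) σ e) then 1 else 0) +
      154 * Fintype.card Γ ≤ H.edgeSet.ncard := by
    have e1 : (12 + 2) * (11 * Fintype.card Γ) = 154 * Fintype.card Γ := by ring
    rw [e1] at a1
    calc _ = 154 * Fintype.card Γ + (∑ ω : Γ × Bool, if absent H ω then 0 else 1) +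
      (∑ e : SE Γ 5, if absent H (ssrc e) ∧
        absent H (stgt (fun i => ρ (FreeGroup.of i)) σ e) then 1 else 0) := by ring
      _ ≤ _ := by convert a1
  have a4 : 11 * Fintype.card Γ ≤ 10 * ((∑ ω : Γ × Bool, if absent H ω then 0 else 1) +
      (∑ e : SE Γ 5, if absent H (ssrc e) ∧
        absent H (stgt (fun i => ρ (FreeGroup.of i)) σ e) then 1 else 0)) := by
    convert a2
  omega

/-- the balanced graph has a cheap rewiring -/
theorem upper_balanced (hR : 2 ≤ R)
    (hρ : ∀ x : FreeGroup (Fin 5), x.norm ≤ R → ρ x = 1 → x = 1) :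
    ∃ H : SimpleGraph (GV (Γ × Bool) (SE Γ 5) 12),
      (∀ u v, H.Adj u v → near (GG (fun i => ρ (FreeGroup.of i)) (fun _ _ => true) 12) u v) ∧
      (∀ u v, (GG (fun i => ρ (FreeGroup.of i)) (fun _ _ => true) 12).Adj u v → near H u v) ∧
      H.edgeSet.ncard ≤ 155 * Fintype.card Γ := by
  classical
  let ctr : SE Γ 5 → Γ × Bool := fun e => match e with
    | Sum.inl x => if x.2.1 then (x.1, x.2.1) else (ρ (FreeGroup.of x.2.2) * x.1, !x.2.1)
    | Sum.inr h => (h, true)
  let oth : SE Γ 5 → Γ × Bool := fun e => match e with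
    | Sum.inl x => if x.2.1 then (ρ (FreeGroup.of x.2.2) * x.1, !x.2.1) else (x.1, x.2.1)
    | Sum.inr h => (h, false)
  have hco : ∀ e, (ctr e = ssrc e ∧
      oth e = stgt (fun i => ρ (FreeGroup.of i)) (fun _ _ => true) e) ∨
      (ctr e = stgt (fun i => ρ (FreeGroup.of i)) (fun _ _ => true) e ∧ oth e = ssrc e) := by
    rintro (⟨h, j, i⟩ | h)
    · cases j
      · right
        exact ⟨rfl, rfl⟩
      · left
        exact ⟨rfl, rfl⟩
    · right
      exact ⟨rfl, rfl⟩
  obtain ⟨H, h1, h2, h3⟩ := upper (M := 12) (ne_GG ρ (fun _ _ => true) hR hρ) (by norm_num)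
    ctr oth hco (Finset.univ.image (fun h : Γ => (h, true)))
    (by
      rintro (⟨h, j, i⟩ | h)
      · cases j
        · simp [ctr]
        · simp [ctr]
      · simp [ctr])
    (by
      intro ω hω
      obtain ⟨h, -, rfl⟩ := Finset.mem_image.1 hω
      exact ⟨Sum.inr h, Or.inr rfl⟩)
  refine ⟨H, h1, h2, h3.trans ?_⟩
  rw [card_SE, Finset.card_image_of_injective _ (fun a b h => congrArg Prod.fst h),
    Finset.card_univ]
  omega

/-- number of vertices whose ball is a given rooted graph -/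
theorem count_balls (hsurj : Function.Surjective ρ) {r : ℕ} (hR : 2 * (r + 1) ≤ R)
    (hρ : ∀ x : FreeGroup (Fin 5), x.norm ≤ R → ρ x = 1 → x = 1)
    (k : ℕ) (F : SimpleGraph (Fin k)) (o : Fin k) :
    {v | Bp (GG (fun i => ρ (FreeGroup.of i)) σ 12) v r k F o}.ncard =
      Fintype.card Γ *
        {t : GV (Unit × Bool) (SE Unit 5) 12 | Bp (UG 5 12) (mb (fun _ => 1) t) r k F o}.ncard := by
  have h1 : {v | Bp (GG (fun i => ρ (FreeGroup.of i)) σ 12) v r k F o} =
      (splitE Γ 5 12).symm '' ((Set.univ : Set Γ) ×ˢ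
        {t : GV (Unit × Bool) (SE Unit 5) 12 | Bp (UG 5 12) (mb (fun _ => 1) t) r k F o}) := by
    ext v
    constructor
    · intro hv
      refine ⟨(splitE Γ 5 12) v, ⟨Set.mem_univ _, ?_⟩, by simp⟩
      have h2 := (splitE Γ 5 12).symm_apply_apply v
      have h3 : v = mb (fun _ => ((splitE Γ 5 12) v).1) ((splitE Γ 5 12) v).2 := h2.symm
      have hv' : Bp (GG (fun i => ρ (FreeGroup.of i)) σ 12) v r k F o := hv
      rw [h3, ball_GG ρ σ (by norm_num) hsurj hR hρ] at hv'
      exact hv'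
    · rintro ⟨⟨h, t⟩, ⟨-, ht⟩, rfl⟩
      have ht' : Bp (UG 5 12) (mb (fun _ => 1) t) r k F o := ht
      rw [← ball_GG ρ σ (by norm_num) hsurj hR hρ h t k F o] at ht'
      exact ht'
  rw [h1, Set.ncard_image_of_injective _ (splitE Γ 5 12).symm.injective, Set.ncard_prod,
    Set.ncard_univ, Nat.card_eq_fintype_card]

theorem card_GV : Fintype.card (GV (Γ × Bool) (SE Γ 5) 12) = 136 * Fintype.card Γ := by
  simp only [Fintype.card_sum, Fintype.card_prod, Fintype.card_bool, Fintype.card_fin]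
  ring

end

theorem main : ¬ (∀ (D : ℕ) (L : ℝ), 1 ≤ L →
    ∀ (N : ℕ → ℕ) (G : ∀ n, SimpleGraph (Fin (N n))),
      (∀ n, (G n).Connected) →
      (∀ n (v : Fin (N n)), ((G n).neighborSet v).ncard ≤ D) →
      (∀ (r k : ℕ) (F : SimpleGraph (Fin k)) (o : Fin k), ∃ p : ℝ,
        Tendsto (fun n => (({v : Fin (N n) | ∃ e : {w : Fin (N n) // (G n).dist v w ≤ r} ≃ Fin k,
            (∀ a : {w : Fin (N n) // (G n).dist v w ≤ r}, (a.1 = v ↔ e a = o)) ∧
            (∀ a b : {w : Fin (N n) // (G n).dist v w ≤ r},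
              ((G n).Adj a.1 b.1 ↔ F.Adj (e a) (e b)))}.ncard : ℕ) : ℝ) / (N n : ℝ))
          atTop (𝓝 p)) →
      ∃ c : ℝ, Tendsto (fun n => sInf {x : ℝ | ∃ H : SimpleGraph (Fin (N n)), H.Connected ∧
          (∀ u v : Fin (N n), ((H.dist u v : ℝ) ≤ L * ((G n).dist u v : ℝ)) ∧
            (((G n).dist u v : ℝ) ≤ L * (H.dist u v : ℝ))) ∧
          x = (H.edgeSet.ncard : ℝ) / (N n : ℝ)}) atTop (𝓝 c)) := by
  classical
  intro hF
  -- the quotients
  choose Γ instG instF ρ hsurj hρ using fun n : ℕ => exists_quot 5 (n + 2)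
  have hρ2 : ∀ n, ∀ x : FreeGroup (Fin 5), x.norm ≤ n + 2 → ρ n x = 1 → x = 1 := hρ
  have hsig := fun n => exists_signs (Γ n) (fun i => ρ n (FreeGroup.of i))
  choose τ hτ using hsig
  let σ : ∀ n, Fin 5 → Γ n → Bool := fun n => if Even n then (fun _ _ => true) else τ n
  let G0 : ∀ n, SimpleGraph (GV (Γ n × Bool) (SE (Γ n) 5) 12) := fun n =>
    GG (fun i => ρ n (FreeGroup.of i)) (σ n) 12
  let N : ℕ → ℕ := fun n => Fintype.card (GV (Γ n × Bool) (SE (Γ n) 5) 12)
  let e : ∀ n, GV (Γ n × Bool) (SE (Γ n) 5) 12 ≃ Fin (N n) := fun n => Fintype.equivFin _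
  have hG0 : ∀ n, (G0 n).Connected := fun n => conn_rho (ρ n) (σ n) (hsurj n)
  have hΓ : ∀ n, 0 < Fintype.card (Γ n) := fun n => Fintype.card_pos
  have hN : ∀ n, N n = 136 * Fintype.card (Γ n) := fun n => card_GV
  obtain ⟨c, hc⟩ := hF 136 2 (by norm_num) N (fun n => (G0 n).comap (e n).symm)
    (fun n => conn_comap (e n) (G0 n) (hG0 n))
    (fun n v => by
      rw [degree_comap]
      exact degree_GG _ _ 12 _)
    (by
      intro r k F o
      set P : ℕ := {t : GV (Unit × Bool) (SE Unit 5) 12 |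
        Bp (UG 5 12) (mb (fun _ => 1) t) r k F o}.ncard with hP
      refine ⟨(P : ℝ) / 136, ?_⟩
      apply tendsto_const_nhds.congr'
      filter_upwards [eventually_ge_atTop (2 * (r + 1))] with n hn
      have h1 : {v : Fin (N n) | Bp ((G0 n).comap (e n).symm) v r k F o} =
          (e n) '' {v | Bp (G0 n) v r k F o} := by
        ext v
        constructor
        · intro hv
          refine ⟨(e n).symm v, ?_, by simp⟩
          exact (Bp_comap (e n) (G0 n) (hG0 n) v r k F o).1 hv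
        · rintro ⟨w, hw, rfl⟩
          refine (Bp_comap (e n) (G0 n) (hG0 n) _ r k F o).2 ?_
          rw [Equiv.symm_apply_apply]
          exact hw
      have h2 : {v : Fin (N n) | Bp ((G0 n).comap (e n).symm) v r k F o}.ncard =
          Fintype.card (Γ n) * P := by
        rw [h1, Set.ncard_image_of_injective _ (e n).injective]
        exact count_balls (ρ n) (σ n) (hsurj n) (R := n + 2) (by omega) (hρ2 n) k F o
      have h3 : (P : ℝ) / 136 =
          (({v : Fin (N n) | Bp ((G0 n).comap (e n).symm) v r k F o}.ncard : ℕ) : ℝ) /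
            (N n : ℝ) := by
        rw [h2, hN n]
        have : (0 : ℝ) < Fintype.card (Γ n) := by exact_mod_cast hΓ n
        push_cast
        field_simp
      exact h3)
  -- the costs
  set cost : ℕ → ℝ := fun n => sInf {x : ℝ | ∃ H : SimpleGraph (Fin (N n)), H.Connected ∧
          (∀ u v : Fin (N n), ((H.dist u v : ℝ) ≤ 2 * (((G0 n).comap (e n).symm).dist u v : ℝ)) ∧
            ((((G0 n).comap (e n).symm).dist u v : ℝ) ≤ 2 * (H.dist u v : ℝ))) ∧
          x = (H.edgeSet.ncard : ℝ) / (N n : ℝ)} with hcost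
  have hset : ∀ n, {x : ℝ | ∃ H : SimpleGraph (Fin (N n)), H.Connected ∧
          (∀ u v : Fin (N n), ((H.dist u v : ℝ) ≤ 2 * (((G0 n).comap (e n).symm).dist u v : ℝ)) ∧
            ((((G0 n).comap (e n).symm).dist u v : ℝ) ≤ 2 * (H.dist u v : ℝ))) ∧
          x = (H.edgeSet.ncard : ℝ) / (N n : ℝ)} =
      {x : ℝ | ∃ H : SimpleGraph (GV (Γ n × Bool) (SE (Γ n) 5) 12),
        (∀ u v, H.Adj u v → near (G0 n) u v) ∧ (∀ u v, (G0 n).Adj u v → near H u v) ∧
        x = (H.edgeSet.ncard : ℝ) / (N n : ℝ)} := by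
    intro n
    ext x
    exact rewire_iff (e n) (G0 n) (hG0 n) (N n : ℝ) x
  have heven : ∀ n, Even n → cost n ≤ (155 : ℝ) / 136 := by
    intro n hn
    rw [hcost]
    simp only
    rw [hset n]
    have hσn : σ n = fun _ _ => true := by simp only [σ, if_pos hn]
    obtain ⟨H, h1, h2, h3⟩ := upper_balanced (ρ n) (R := n + 2) (by omega) (hρ2 n)
    have hmem : (H.edgeSet.ncard : ℝ) / (N n : ℝ) ∈
        {x : ℝ | ∃ H : SimpleGraph (GV (Γ n × Bool) (SE (Γ n) 5) 12),
        (∀ u v, H.Adj u v → near (G0 n) u v) ∧ (∀ u v, (G0 n).Adj u v → near H u v) ∧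
        x = (H.edgeSet.ncard : ℝ) / (N n : ℝ)} := by
      refine ⟨H, ?_, ?_, rfl⟩
      · simp only [G0, hσn]; exact h1
      · simp only [G0, hσn]; exact h2
    refine (csInf_le ?_ hmem).trans ?_
    · refine ⟨0, ?_⟩
      rintro x ⟨H, -, -, rfl⟩
      positivity
    · have : (0 : ℝ) < Fintype.card (Γ n) := by exact_mod_cast hΓ n
      have h4 : (H.edgeSet.ncard : ℝ) ≤ 155 * Fintype.card (Γ n) := by exact_mod_cast h3
      rw [hN n]
      push_cast
      rw [div_le_div_iff₀ (by positivity) (by norm_num)]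
      nlinarith
  have hodd : ∀ n, ¬ Even n → (1551 : ℝ) / 1360 ≤ cost n := by
    intro n hn
    rw [hcost]
    simp only
    rw [hset n]
    have hσn : σ n = τ n := by simp only [σ, if_neg hn]
    refine le_csInf ?_ ?_
    · refine ⟨_, G0 n, fun u v h => Or.inl h, fun u v h => Or.inl h, rfl⟩
    · rintro x ⟨H, h1, h2, rfl⟩
      have h3 := lower_frustrated (ρ n) (σ n) (R := n + 2) (by omega) (hρ2 n)
        (by rw [hσn]; exact hτ n) H h1 h2
      have : (0 : ℝ) < Fintype.card (Γ n) := by exact_mod_cast hΓ n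
      have h4 : (1551 * Fintype.card (Γ n) : ℝ) ≤ 10 * H.edgeSet.ncard := by exact_mod_cast h3
      rw [hN n]
      push_cast
      rw [div_le_div_iff₀ (by norm_num) (by positivity)]
      nlinarith
  -- contradiction
  have hc' : Tendsto cost atTop (𝓝 c) := hc
  clear_value cost
  clear hset hc
  have h1 : c ≤ (155 : ℝ) / 136 := by
    have hm : StrictMono (fun n : ℕ => 2 * n) := fun a b h => by
      show 2 * a < 2 * b
      omega
    have hsub : Tendsto (fun n : ℕ => cost (2 * n)) atTop (𝓝 c) :=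
      hc'.comp hm.tendsto_atTop
    exact le_of_tendsto' hsub (fun n => heven _ (even_two_mul n))
  have h2 : (1551 : ℝ) / 1360 ≤ c := by
    have hm : StrictMono (fun n : ℕ => 2 * n + 1) := fun a b h => by
      show 2 * a + 1 < 2 * b + 1
      omega
    have hsub : Tendsto (fun n : ℕ => cost (2 * n + 1)) atTop (𝓝 c) :=
      hc'.comp hm.tendsto_atTop
    exact ge_of_tendsto' hsub (fun n => hodd _ (by
      rw [Nat.not_even_iff_odd]
      exact odd_two_mul_add_one n))
  linarith

end Pool.Agent.H43R3.RW
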