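import Mathlib

/-!
# Lower bound for rewirings of the gadget graph
-/

set_option autoImplicit false

namespace Pool.Agent.H43R3.RW

open Finset

/-- vertices of the gadget graph: two vertices for each `ω`, `M` vertices for each edge `e` -/
abbrev GV (Ω E : Type) (M : ℕ) : Type := (Ω × Bool) ⊕ (E × Fin M)

/-- the gadget graph: `(e, k)` is adjacent to both copies of both endpoints of `e` -/
def gad {Ω E : Type} (src tgt : E → Ω) (M : ℕ) : SimpleGraph (GV Ω E M) where
  Adj u v := match u, v with
    | Sum.inl c, Sum.inr x => c.1 = src x.1 ∨ c.1 = tgt x.1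
    | Sum.inr x, Sum.inl c => c.1 = src x.1 ∨ c.1 = tgt x.1
    | _, _ => False
  symm := ⟨by
    rintro (i | i) (j | j) h <;> exact h⟩
  loopless := ⟨by
    rintro (i | i) h <;> exact h⟩

/-- adjacent or joined by a path of length two -/
def near {V : Type} (G : SimpleGraph V) (u v : V) : Prop := G.Adj u v ∨ ∃ w, G.Adj u w ∧ G.Adj w v

section

variable {Ω E : Type} {src tgt : E → Ω} {M : ℕ}

theorem gad_near {x : E × Fin M} {c : Ω × Bool}
    (h : near (gad src tgt M) (Sum.inr x) (Sum.inl c)) : c.1 = src x.1 ∨ c.1 = tgt x.1 := by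
  rcases h with h | ⟨w, h1, h2⟩
  · exact h
  · rcases w with w | w
    · exact h2.elim
    · exact h1.elim

variable [Fintype Ω] [Fintype E] (H : SimpleGraph (GV Ω E M))

open Classical in
/-- number of neighbours in the core -/
noncomputable def iN (x : E × Fin M) : ℕ :=
  (univ.filter (fun c : Ω × Bool => H.Adj (Sum.inr x) (Sum.inl c))).card

open Classical in
/-- number of neighbours among the edge vertices -/
noncomputable def jN (x : E × Fin M) : ℕ :=
  (univ.filter (fun x' : E × Fin M => H.Adj (Sum.inr x) (Sum.inr x'))).card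

open Classical in
/-- share of the edge `x x'` charged to `x`, times four -/
noncomputable def kap (x x' : E × Fin M) : ℕ :=
  if iN H x + jN H x = 1 then 4 else if iN H x' + jN H x' = 1 then 0
  else if iN H x = 0 ∧ 1 ≤ iN H x' then 3 else if 1 ≤ iN H x ∧ iN H x' = 0 then 1 else 2

open Classical in
/-- four times the charge of `x` -/
noncomputable def ch (x : E × Fin M) : ℕ :=
  4 * iN H x + ∑ x' : E × Fin M, if H.Adj (Sum.inr x) (Sum.inr x') then kap H x x' else 0

variable {H}

theorem iN_pos {x : E × Fin M} {c : Ω × Bool} (h : H.Adj (Sum.inr x) (Sum.inl c)) :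
    1 ≤ iN H x := by
  classical
  exact Finset.card_pos.2 ⟨c, by simp [h]⟩

theorem jN_pos {x x' : E × Fin M} (h : H.Adj (Sum.inr x) (Sum.inr x')) : 1 ≤ jN H x := by
  classical
  exact Finset.card_pos.2 ⟨x', by simp [h]⟩

theorem jN_two {x x' x'' : E × Fin M} (h : H.Adj (Sum.inr x) (Sum.inr x'))
    (h' : H.Adj (Sum.inr x) (Sum.inr x'')) (hne : x' ≠ x'') : 2 ≤ jN H x := by
  classical
  exact Finset.one_lt_card.2 ⟨x', by simp [h], x'', by simp [h'], hne⟩

theorem iN_two {x : E × Fin M} {c c' : Ω × Bool} (h : H.Adj (Sum.inr x) (Sum.inl c))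
    (h' : H.Adj (Sum.inr x) (Sum.inl c')) (hne : c ≠ c') : 2 ≤ iN H x := by
  classical
  exact Finset.one_lt_card.2 ⟨c, by simp [h], c', by simp [h'], hne⟩

/-- a leaf attached to an edge vertex -/
theorem leaf_x (h2 : ∀ u v, (gad src tgt M).Adj u v → near H u v) {x x' : E × Fin M}
    (h : H.Adj (Sum.inr x) (Sum.inr x')) (hd : iN H x + jN H x = 1) (c : Ω × Bool)
    (hc : c.1 = src x.1 ∨ c.1 = tgt x.1) : H.Adj (Sum.inr x') (Sum.inl c) := by
  have h3 : near H (Sum.inr x) (Sum.inl c) := h2 (Sum.inr x) (Sum.inl c) hc
  have hj := jN_pos h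
  rcases h3 with h3 | ⟨w, h4, h5⟩
  · have := iN_pos h3
    omega
  · rcases w with w | w
    · have := iN_pos h4
      omega
    · by_cases hw : w = x'
      · rw [hw] at h5; exact h5
      · have := jN_two h4 h hw
        omega

theorem four_le (hne : ∀ e, src e ≠ tgt e) {x x' : E × Fin M}
    (h : ∀ c : Ω × Bool, (c.1 = src x.1 ∨ c.1 = tgt x.1) → H.Adj (Sum.inr x') (Sum.inl c)) :
    4 ≤ iN H x' := by
  classical
  have hsub : (({(src x.1, false), (src x.1, true), (tgt x.1, false), (tgt x.1, true)} :
      Finset (Ω × Bool))) ⊆ univ.filter (fun c : Ω × Bool => H.Adj (Sum.inr x') (Sum.inl c)) := by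
    intro c hc
    simp only [Finset.mem_insert, Finset.mem_singleton] at hc
    rw [Finset.mem_filter]
    refine ⟨Finset.mem_univ _, h c ?_⟩
    rcases hc with rfl | rfl | rfl | rfl <;> simp
  have hcard := Finset.card_le_card hsub
  have h4 : ({(src x.1, false), (src x.1, true), (tgt x.1, false), (tgt x.1, true)} :
      Finset (Ω × Bool)).card = 4 := by
    have hne' := hne x.1
    rw [Finset.card_insert_of_notMem, Finset.card_insert_of_notMem, Finset.card_insert_of_notMem,
      Finset.card_singleton]
    · simp
    · simp [hne']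
    · simp [hne']
  rw [h4] at hcard
  exact hcard

theorem leaf_four (hne : ∀ e, src e ≠ tgt e)
    (h2 : ∀ u v, (gad src tgt M).Adj u v → near H u v) {x x' : E × Fin M}
    (h : H.Adj (Sum.inr x) (Sum.inr x')) (hd : iN H x + jN H x = 1) : 4 ≤ iN H x' :=
  four_le hne (fun c hc => leaf_x h2 h hd c hc)

theorem kap_add (hne : ∀ e, src e ≠ tgt e)
    (h2 : ∀ u v, (gad src tgt M).Adj u v → near H u v) {x x' : E × Fin M}
    (h : H.Adj (Sum.inr x) (Sum.inr x')) : kap H x x' + kap H x' x ≤ 4 := by
  have h3 := fun hd => leaf_four hne h2 h hd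
  have h4 := fun hd => leaf_four hne h2 h.symm hd
  unfold kap
  split_ifs <;> omega

theorem ch_ge_kap {x x' : E × Fin M} (h : H.Adj (Sum.inr x) (Sum.inr x')) :
    4 * iN H x + kap H x x' ≤ ch H x := by
  classical
  unfold ch
  have : kap H x x' ≤ ∑ x' : E × Fin M, if H.Adj (Sum.inr x) (Sum.inr x') then kap H x x' else 0 := by
    calc kap H x x' = (if H.Adj (Sum.inr x) (Sum.inr x') then kap H x x' else 0) := by rw [if_pos h]
      _ ≤ _ := Finset.single_le_sum
        (f := fun x' : E × Fin M => if H.Adj (Sum.inr x) (Sum.inr x') then kap H x x' else 0)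
        (fun _ _ => Nat.zero_le _) (Finset.mem_univ x')
  omega

theorem ch_ge_kap2 {x x' x'' : E × Fin M} (h : H.Adj (Sum.inr x) (Sum.inr x'))
    (h' : H.Adj (Sum.inr x) (Sum.inr x'')) (hne : x' ≠ x'') :
    kap H x x' + kap H x x'' ≤ ch H x := by
  classical
  unfold ch
  have : kap H x x' + kap H x x'' ≤
      ∑ x' : E × Fin M, if H.Adj (Sum.inr x) (Sum.inr x') then kap H x x' else 0 := by
    calc kap H x x' + kap H x x'' = ∑ z ∈ ({x', x''} : Finset (E × Fin M)),
          (if H.Adj (Sum.inr x) (Sum.inr z) then kap H x z else 0) := by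
          rw [Finset.sum_pair hne, if_pos h, if_pos h']
      _ ≤ _ := Finset.sum_le_sum_of_subset (Finset.subset_univ _)
  omega

theorem exists_nbr (h2 : ∀ u v, (gad src tgt M).Adj u v → near H u v) (x : E × Fin M) :
    1 ≤ iN H x + jN H x := by
  have h3 : near H (Sum.inr x) (Sum.inl (src x.1, true)) := h2 _ _ (Or.inl rfl)
  rcases h3 with h3 | ⟨w, h4, h5⟩
  · have := iN_pos h3
    omega
  · rcases w with w | w
    · have := iN_pos h4
      omega
    · have := jN_pos h4
      omega

theorem exists_of_jN {x : E × Fin M} (h : 1 ≤ jN H x) : ∃ x', H.Adj (Sum.inr x) (Sum.inr x') := by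
  classical
  obtain ⟨x', h⟩ := Finset.card_pos.1 h
  exact ⟨x', by simpa using h⟩

theorem exists_of_iN {x : E × Fin M} (h : 1 ≤ iN H x) : ∃ c, H.Adj (Sum.inr x) (Sum.inl c) := by
  classical
  obtain ⟨x', h⟩ := Finset.card_pos.1 h
  exact ⟨x', by simpa using h⟩

theorem ch_ge_five (hne : ∀ e, src e ≠ tgt e)
    (h2 : ∀ u v, (gad src tgt M).Adj u v → near H u v) {x : E × Fin M}
    (hd : iN H x + jN H x ≠ 1) : 5 ≤ ch H x := by
  classical
  have hd1 := exists_nbr h2 x
  rcases Nat.lt_or_ge (iN H x) 1 with hi | hi
  · -- no core neighbour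
    have hi0 : iN H x = 0 := by omega
    have h3 : near H (Sum.inr x) (Sum.inl (src x.1, true)) := h2 _ _ (Or.inl rfl)
    rcases h3 with h3 | ⟨w, h4, h5⟩
    · have := iN_pos h3
      omega
    · rcases w with w | w
      · have := iN_pos h4
        omega
      · have hw := iN_pos h5
        have hj : 2 ≤ jN H x := by omega
        obtain ⟨x', hx', hne'⟩ : ∃ x', H.Adj (Sum.inr x) (Sum.inr x') ∧ w ≠ x' := by
          obtain ⟨a, ha, b, hb, hab⟩ := Finset.one_lt_card.1 hj
          simp only [Finset.mem_filter, Finset.mem_univ, true_and] at ha hb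
          by_cases haw : w = a
          · exact ⟨b, hb, by rw [haw]; exact hab⟩
          · exact ⟨a, ha, haw⟩
        have h6 := ch_ge_kap2 h4 hx' hne'
        have h7 := fun hd => leaf_four hne h2 h4.symm hd
        have h8 := fun hd => leaf_four hne h2 hx'.symm hd
        have h9 : kap H x w = 3 := by
          unfold kap
          split_ifs <;> omega
        have h10 : 2 ≤ kap H x x' := by
          unfold kap
          split_ifs <;> omega
        omega
  · rcases Nat.lt_or_ge (iN H x) 2 with hi' | hi'
    · have hj : 1 ≤ jN H x := by omega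
      obtain ⟨x', hx'⟩ := exists_of_jN hj
      have h6 := ch_ge_kap hx'
      have h8 := fun hd => leaf_four hne h2 hx'.symm hd
      have h10 : 1 ≤ kap H x x' := by
        unfold kap
        split_ifs <;> omega
      omega
    · unfold ch
      omega

theorem ch_ge_four (hne : ∀ e, src e ≠ tgt e)
    (h2 : ∀ u v, (gad src tgt M).Adj u v → near H u v) (x : E × Fin M) : 4 ≤ ch H x := by
  by_cases hd : iN H x + jN H x = 1
  · rcases Nat.lt_or_ge (iN H x) 1 with hi | hi
    · obtain ⟨x', hx'⟩ := exists_of_jN (H := H) (x := x) (by omega)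
      have h6 := ch_ge_kap hx'
      have h7 : kap H x x' = 4 := by
        unfold kap
        rw [if_pos hd]
      omega
    · unfold ch
      omega
  · have := ch_ge_five hne h2 hd
    omega

open Classical in
/-- number of core edges between the fibres of the endpoints -/
noncomputable def pN (H : SimpleGraph (GV Ω E M)) (ω ω' : Ω) : ℕ :=
  ∑ b : Bool, ∑ c : Bool, if H.Adj (Sum.inl (ω, b)) (Sum.inl (ω', c)) then 1 else 0

/-- the fibre over `ω` is not an edge -/
def absent (H : SimpleGraph (GV Ω E M)) (ω : Ω) : Prop :=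
  ¬ H.Adj (Sum.inl (ω, false)) (Sum.inl (ω, true))

open Classical in
theorem edge_bound (hne : ∀ e, src e ≠ tgt e)
    (hinj : ∀ e e', s(src e, tgt e) = s(src e', tgt e') → e = e') (hM : 12 ≤ M)
    (h1 : ∀ u v, H.Adj u v → near (gad src tgt M) u v)
    (h2 : ∀ u v, (gad src tgt M).Adj u v → near H u v) (e : E) :
    4 * (M + 2 + if absent H (src e) ∧ absent H (tgt e) then 1 else 0) ≤
      ∑ k : Fin M, ch H (e, k) + 4 * pN H (src e) (tgt e) := by
  have hall : 4 * M ≤ ∑ k : Fin M, ch H (e, k) := by
    calc 4 * M = ∑ k : Fin M, 4 := by simp [mul_comm]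
      _ ≤ _ := Finset.sum_le_sum fun k _ => ch_ge_four hne h2 _
  by_cases hleaf : ∃ k : Fin M, iN H (e, k) + jN H (e, k) = 1
  · obtain ⟨k, hk⟩ := hleaf
    rcases Nat.lt_or_ge (iN H (e, k)) 1 with hi | hi
    · -- attached to an edge vertex
      obtain ⟨x', hx'⟩ := exists_of_jN (H := H) (x := (e, k)) (by omega)
      have h4 := leaf_four hne h2 hx' hk
      have hs := leaf_x h2 hx' hk
      have h5 : s(src e, tgt e) = s(src x'.1, tgt x'.1) := by
        have ha : src e = src x'.1 ∨ src e = tgt x'.1 :=
          gad_near (h1 _ _ (hs (src e, true) (Or.inl rfl)))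
        have hb : tgt e = src x'.1 ∨ tgt e = tgt x'.1 :=
          gad_near (h1 _ _ (hs (tgt e, true) (Or.inr rfl)))
        rw [Sym2.eq_iff]
        have := hne e
        rcases ha with ha | ha <;> rcases hb with hb | hb
        · exact absurd (ha.trans hb.symm) this
        · exact Or.inl ⟨ha, hb⟩
        · exact Or.inr ⟨ha, hb⟩
        · exact absurd (ha.trans hb.symm) this
      have h6 : x'.1 = e := (hinj _ _ h5).symm
      obtain ⟨e', k'⟩ := x'
      simp only at h6
      subst h6
      have h7 : 16 ≤ ch H (e', k') := by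
        unfold ch
        omega
      have h8 : 16 + 4 * (M - 1) ≤ ∑ k : Fin M, ch H (e', k) := by
        rw [← Finset.add_sum_erase _ _ (Finset.mem_univ k')]
        refine add_le_add h7 ?_
        calc 4 * (M - 1) = ∑ k ∈ (univ : Finset (Fin M)).erase k', 4 := by
              simp [Finset.card_erase_of_mem, mul_comm]
          _ ≤ _ := Finset.sum_le_sum fun k _ => ch_ge_four hne h2 _
      split_ifs <;> omega
    · -- good leaf
      obtain ⟨c, hc⟩ := exists_of_iN hi
      have hcS : c.1 = src e ∨ c.1 = tgt e := gad_near (h1 _ _ hc)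
      have hstar : ∀ c' : Ω × Bool, c'.1 = src e ∨ c'.1 = tgt e → c' ≠ c →
          H.Adj (Sum.inl c) (Sum.inl c') := by
        intro c' hc' hcc
        have h3 : near H (Sum.inr (e, k)) (Sum.inl c') := h2 _ _ hc'
        rcases h3 with h3 | ⟨w, h4, h5⟩
        · have := iN_two h3 hc hcc
          omega
        · rcases w with w | w
          · by_cases hw : w = c
            · rw [hw] at h5; exact h5
            · have := iN_two h4 hc hw
              omega
          · have := jN_pos h4
            omega
      have hpres : ¬ (absent H (src e) ∧ absent H (tgt e)) := by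
        rintro ⟨ha, hb⟩
        obtain ⟨ω, b⟩ := c
        simp only at hcS
        have hb' : ∀ ω', ω' = ω → ¬ absent H ω' := by
          rintro ω' rfl hab
          have h9 := hstar (ω', !b) hcS (by simp)
          cases b
          · exact hab h9
          · exact hab h9.symm
        rcases hcS with h | h
        · exact hb' _ h.symm ha
        · exact hb' _ h.symm hb
      have hp : 2 ≤ pN H (src e) (tgt e) := by
        obtain ⟨ω, b⟩ := c
        simp only at hcS
        rcases hcS with h | h
        · subst h
          have h10 : ∀ c, H.Adj (Sum.inl (src e, b)) (Sum.inl (tgt e, c)) := fun c =>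
            hstar (tgt e, c) (Or.inr rfl) (by
              intro h; exact hne e (congrArg Prod.fst h).symm)
          unfold pN
          cases b
          · have ha := h10 false
            have hb := h10 true
            simp only [Fintype.sum_bool, ha, hb, if_true]
            omega
          · have ha := h10 false
            have hb := h10 true
            simp only [Fintype.sum_bool, ha, hb, if_true]
            omega
        · subst h
          have h10 : ∀ c, H.Adj (Sum.inl (src e, c)) (Sum.inl (tgt e, b)) := fun c =>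
            (hstar (src e, c) (Or.inl rfl) (by
              intro h; exact hne e (congrArg Prod.fst h))).symm
          unfold pN
          cases b
          · have ha := h10 false
            have hb := h10 true
            simp only [Fintype.sum_bool, ha, hb, if_true]
            omega
          · have ha := h10 false
            have hb := h10 true
            simp only [Fintype.sum_bool, ha, hb, if_true]
            omega
      rw [if_neg hpres]
      omega
  · push Not at hleaf
    have h5 : 5 * M ≤ ∑ k : Fin M, ch H (e, k) := by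
      calc 5 * M = ∑ k : Fin M, 5 := by simp [mul_comm]
        _ ≤ _ := Finset.sum_le_sum fun k _ => ch_ge_five hne h2 (hleaf k)
    split_ifs <;> omega

end

end Pool.Agent.H43R3.RW
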