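import Pool.Agent.H43R3.RW.Lower

set_option autoImplicit false

namespace Pool.Agent.H43R3.RW

open Finset

/-- most signings are far from balanced -/
theorem exists_signs (Γ : Type) [Group Γ] [Fintype Γ] [DecidableEq Γ] (g : Fin 5 → Γ) :
    ∃ σ : Fin 5 → Γ → Bool, ∀ s : Γ → Bool, Fintype.card Γ ≤
      ((univ : Finset (Fin 5 × Γ)).filter
        (fun p => s (g p.1 * p.2) = xor (s p.2) (σ p.1 p.2))).card := by
  classical
  by_contra hcon
  push Not at hcon
  set n := Fintype.card Γ with hn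
  have hn0 : 0 < n := Fintype.card_pos
  let t : (Γ → Bool) → (Fin 5 × Γ) → Bool := fun s p => xor (s (g p.1 * p.2)) (s p.2)
  let w : (Fin 5 × Γ → Bool) → (Γ → Bool) → ℕ := fun τ s => ∏ p, if τ p = t s p then 1 else 2
  have h1 : ∀ τ : Fin 5 × Γ → Bool, 2 ^ (4 * n) ≤ ∑ s : Γ → Bool, w τ s := by
    intro τ
    obtain ⟨s, hs⟩ := hcon (fun i h => τ (i, h))
    have h2 : ((univ : Finset (Fin 5 × Γ)).filter
        (fun p => s (g p.1 * p.2) = xor (s p.2) (τ (p.1, p.2)))).card =
        ((univ : Finset (Fin 5 × Γ)).filter (fun p => τ p = t s p)).card := by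
      congr 1
      ext p
      simp only [Finset.mem_filter, Finset.mem_univ, true_and, t, Prod.mk.eta]
      cases s (g p.1 * p.2) <;> cases s p.2 <;> cases τ p <;> simp
    rw [h2] at hs
    have h3 : w τ s = 2 ^ ((univ : Finset (Fin 5 × Γ)).filter (fun p => ¬ τ p = t s p)).card := by
      simp only [w]
      rw [Finset.prod_ite]
      simp
    have h4 : ((univ : Finset (Fin 5 × Γ)).filter (fun p => τ p = t s p)).card +
        ((univ : Finset (Fin 5 × Γ)).filter (fun p => ¬ τ p = t s p)).card = 5 * n := by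
      rw [Finset.card_filter_add_card_filter_not]
      simp [hn]
    calc 2 ^ (4 * n) ≤ w τ s := by
          rw [h3]
          exact Nat.pow_le_pow_right (by norm_num) (by omega)
      _ ≤ _ := Finset.single_le_sum (f := fun s => w τ s) (fun _ _ => Nat.zero_le _)
          (Finset.mem_univ s)
  have h5 : ∀ s : Γ → Bool, ∑ τ : Fin 5 × Γ → Bool, w τ s = 3 ^ (5 * n) := by
    intro s
    simp only [w]
    have h6 : ∏ p : Fin 5 × Γ, ∑ b : Bool, (if b = t s p then 1 else 2) =
        ∑ τ : Fin 5 × Γ → Bool, ∏ p, (if τ p = t s p then 1 else 2) := by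
      rw [Finset.prod_univ_sum, Fintype.piFinset_univ]
    rw [← h6]
    have h7 : ∀ p : Fin 5 × Γ, ∑ b : Bool, (if b = t s p then 1 else 2) = 3 := by
      intro p
      cases t s p <;> simp
    rw [Finset.prod_congr rfl (fun p _ => h7 p)]
    simp [hn]
  have h8 : 2 ^ (5 * n) * 2 ^ (4 * n) ≤ 2 ^ n * 3 ^ (5 * n) := by
    calc 2 ^ (5 * n) * 2 ^ (4 * n) = ∑ τ : Fin 5 × Γ → Bool, 2 ^ (4 * n) := by
          simp [hn]
      _ ≤ ∑ τ : Fin 5 × Γ → Bool, ∑ s : Γ → Bool, w τ s := Finset.sum_le_sum fun τ _ => h1 τ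
      _ = ∑ s : Γ → Bool, ∑ τ : Fin 5 × Γ → Bool, w τ s := Finset.sum_comm
      _ = 2 ^ n * 3 ^ (5 * n) := by
          simp only [h5]
          simp [hn]
  have h9 : 2 ^ n * (256 : ℕ) ^ n ≤ 2 ^ n * 243 ^ n := by
    have e1 : (2 : ℕ) ^ (5 * n) * 2 ^ (4 * n) = 2 ^ n * 256 ^ n := by
      rw [show (256 : ℕ) = 2 ^ 8 by norm_num, ← pow_mul, ← pow_add, ← pow_add]
      congr 1
      ring
    have e2 : (3 : ℕ) ^ (5 * n) = 243 ^ n := by
      rw [show (243 : ℕ) = 3 ^ 5 by norm_num, ← pow_mul]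
    rw [← e1, ← e2]
    exact h8
  have h10 : (256 : ℕ) ^ n ≤ 243 ^ n := Nat.le_of_mul_le_mul_left h9 (by positivity)
  have h11 : (243 : ℕ) ^ n < 256 ^ n := Nat.pow_lt_pow_left (by norm_num) hn0.ne'
  omega

/-- edges of the signed Schreier graph -/
abbrev SE (Γ : Type) (d : ℕ) : Type := (Γ × Bool × Fin d) ⊕ Γ

def ssrc {Γ : Type} {d : ℕ} : SE Γ d → Γ × Bool := fun e => match e with
  | Sum.inl x => (x.1, x.2.1)
  | Sum.inr h => (h, false)

def stgt {Γ : Type} [Group Γ] {d : ℕ} (g : Fin d → Γ) (σ : Fin d → Γ → Bool) :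
    SE Γ d → Γ × Bool := fun e => match e with
  | Sum.inl x => (g x.2.2 * x.1, xor x.2.1 (σ x.2.2 x.1))
  | Sum.inr h => (h, true)

open Classical in
theorem frustrated {Γ : Type} [Group Γ] [Fintype Γ] (g : Fin 5 → Γ)
    (σ : Fin 5 → Γ → Bool)
    (hσ : ∀ s : Γ → Bool, Fintype.card Γ ≤ ((univ : Finset (Fin 5 × Γ)).filter
        (fun p => s (g p.1 * p.2) = xor (s p.2) (σ p.1 p.2))).card)
    (A : Γ × Bool → Prop) :
    11 * Fintype.card Γ ≤ 10 * ((∑ ω : Γ × Bool, if A ω then 0 else 1) +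
      ∑ e : SE Γ 5, if A (ssrc e) ∧ A (stgt g σ e) then 1 else 0) := by
  set n := Fintype.card Γ with hn
  let Z : Γ → Prop := fun h => ¬ A (h, false) ∧ ¬ A (h, true)
  let s : Γ → Bool := fun h => if A (h, true) then true else false
  have hs : ∀ h, ¬ Z h → A (h, s h) := by
    intro h hZ
    by_cases ht : A (h, true)
    · simpa [s, ht] using ht
    · have : A (h, false) := by
        by_contra hf
        exact hZ ⟨hf, ht⟩
      simpa [s, ht] using this
  set z := ((univ : Finset Γ).filter (fun h => Z h)).card with hz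
  -- fibres
  have h1 : (∑ ω : Γ × Bool, if A ω then 0 else 1) +
      (∑ h : Γ, if A (h, false) ∧ A (h, true) then 1 else 0) = n + z := by
    rw [Fintype.sum_prod_type, ← Finset.sum_add_distrib, hz, Finset.card_filter]
    have : n = ∑ h : Γ, 1 := by simp [hn]
    rw [this, ← Finset.sum_add_distrib]
    refine Finset.sum_congr rfl fun h _ => ?_
    simp only [Fintype.sum_bool, Z]
    by_cases a : A (h, false) <;> by_cases b : A (h, true) <;> simp [a, b]
  -- edges
  have h2 : (∑ e : SE Γ 5, if A (ssrc e) ∧ A (stgt g σ e) then 1 else 0) =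
      (∑ x : Γ × Bool × Fin 5, if A (x.1, x.2.1) ∧
        A (g x.2.2 * x.1, xor x.2.1 (σ x.2.2 x.1)) then 1 else 0) +
      (∑ h : Γ, if A (h, false) ∧ A (h, true) then 1 else 0) := by
    rw [Fintype.sum_sum_type]
    rfl
  set cnt := (∑ x : Γ × Bool × Fin 5, if A (x.1, x.2.1) ∧
        A (g x.2.2 * x.1, xor x.2.1 (σ x.2.2 x.1)) then 1 else 0) with hcnt
  have h3 : ((univ : Finset (Fin 5 × Γ)).filter (fun p =>
      s (g p.1 * p.2) = xor (s p.2) (σ p.1 p.2) ∧ ¬ Z p.2 ∧ ¬ Z (g p.1 * p.2))).card ≤ cnt := by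
    rw [hcnt, ← Finset.card_filter]
    refine Finset.card_le_card_of_injOn (fun p => (p.2, s p.2, p.1)) ?_ ?_
    · intro p hp
      simp only [Finset.coe_filter, Finset.mem_univ, true_and, Set.mem_setOf_eq] at hp ⊢
      refine ⟨hs _ hp.2.1, ?_⟩
      rw [← hp.1]
      exact hs _ hp.2.2
    · intro p _ q _ h
      simp only [Prod.mk.injEq] at h
      exact Prod.ext h.2.2 h.1
  have h4 : ((univ : Finset (Fin 5 × Γ)).filter (fun p => Z p.2)).card = 5 * z := by
    have : (univ : Finset (Fin 5 × Γ)).filter (fun p => Z p.2) =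
        (univ : Finset (Fin 5)) ×ˢ ((univ : Finset Γ).filter (fun h => Z h)) := by
      ext p; simp
    rw [this, Finset.card_product]
    simp [hz]
  have h5 : ((univ : Finset (Fin 5 × Γ)).filter (fun p => Z (g p.1 * p.2))).card = 5 * z := by
    rw [← h4]
    refine Finset.card_bij (fun p _ => (p.1, g p.1 * p.2)) ?_ ?_ ?_
    · intro p hp; simpa using hp
    · intro p _ q _ h
      simp only [Prod.mk.injEq] at h
      obtain ⟨h6, h7⟩ := h
      rw [h6] at h7
      exact Prod.ext h6 (mul_left_cancel h7)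
    · intro q hq
      refine ⟨(q.1, (g q.1)⁻¹ * q.2), ?_, ?_⟩
      · simpa using hq
      · simp
  have h6 : n ≤ cnt + 10 * z := by
    calc n ≤ _ := hσ s
      _ ≤ ((univ : Finset (Fin 5 × Γ)).filter (fun p =>
            s (g p.1 * p.2) = xor (s p.2) (σ p.1 p.2) ∧ ¬ Z p.2 ∧ ¬ Z (g p.1 * p.2)) ∪
          ((univ : Finset (Fin 5 × Γ)).filter (fun p => Z p.2) ∪
          (univ : Finset (Fin 5 × Γ)).filter (fun p => Z (g p.1 * p.2)))).card := by
          refine Finset.card_le_card ?_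
          intro p hp
          simp only [Finset.mem_union, Finset.mem_filter, Finset.mem_univ, true_and] at hp ⊢
          tauto
      _ ≤ cnt + (5 * z + 5 * z) := by
          refine (Finset.card_union_le _ _).trans (add_le_add h3 ?_)
          refine (Finset.card_union_le _ _).trans ?_
          rw [h4, h5]
      _ = cnt + 10 * z := by ring
  rw [h2]
  omega

end Pool.Agent.H43R3.RW
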