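import Pool.Agent.H43R3.RW.Lower

set_option autoImplicit false

namespace Pool.Agent.H43R3.RW

open Finset

theorem near_symm {V : Type} {G : SimpleGraph V} {u v : V} (h : near G u v) : near G v u := by
  rcases h with h | ⟨w, h1, h2⟩
  · exact Or.inl h.symm
  · exact Or.inr ⟨w, h2.symm, h1.symm⟩

/-- a cheap rewiring from a vertex cover consisting of one endpoint of each edge -/
theorem upper {Ω E : Type} [Fintype Ω] [Fintype E] {src tgt : E → Ω} {M : ℕ}
    (hne : ∀ e, src e ≠ tgt e) (hM : 0 < M) (ctr oth : E → Ω)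
    (hco : ∀ e, (ctr e = src e ∧ oth e = tgt e) ∨ (ctr e = tgt e ∧ oth e = src e))
    (Cv : Finset Ω) (hC : ∀ e, ctr e ∈ Cv) (hC' : ∀ ω ∈ Cv, ∃ e, ω = src e ∨ ω = tgt e) :
    ∃ H : SimpleGraph (GV Ω E M), (∀ u v, H.Adj u v → near (gad src tgt M) u v) ∧
      (∀ u v, (gad src tgt M).Adj u v → near H u v) ∧
      H.edgeSet.ncard ≤ (M + 2) * Fintype.card E + Cv.card := by
  classical
  let φ : (E × Fin M) ⊕ ((E × Bool) ⊕ {ω // ω ∈ Cv}) → Sym2 (GV Ω E M) := fun z => match z with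
    | Sum.inl x => s(Sum.inr x, Sum.inl (ctr x.1, true))
    | Sum.inr (Sum.inl y) => s(Sum.inl (ctr y.1, true), Sum.inl (oth y.1, y.2))
    | Sum.inr (Sum.inr ω) => s(Sum.inl (ω.1, true), Sum.inl (ω.1, false))
  let H : SimpleGraph (GV Ω E M) := SimpleGraph.fromEdgeSet (Set.range φ)
  have hadj : ∀ u v, H.Adj u v ↔ (∃ z, φ z = s(u, v)) ∧ u ≠ v := by
    intro u v
    simp only [H, SimpleGraph.fromEdgeSet_adj, Set.mem_range]
  have hctr : ∀ e, ctr e = src e ∨ ctr e = tgt e := fun e => by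
    rcases hco e with h | h
    · exact Or.inl h.1
    · exact Or.inr h.1
  have hoth : ∀ e, oth e = src e ∨ oth e = tgt e := fun e => by
    rcases hco e with h | h
    · exact Or.inr h.2
    · exact Or.inl h.2
  have hneq : ∀ e, ctr e ≠ oth e := fun e => by
    rcases hco e with h | h
    · rw [h.1, h.2]; exact hne e
    · rw [h.1, h.2]; exact (hne e).symm
  have a1 : ∀ e k, H.Adj (Sum.inr (e, k)) (Sum.inl (ctr e, true)) := fun e k =>
    (hadj _ _).2 ⟨⟨Sum.inl (e, k), rfl⟩, by simp⟩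
  have a2 : ∀ e b, H.Adj (Sum.inl (ctr e, true)) (Sum.inl (oth e, b)) := fun e b =>
    (hadj _ _).2 ⟨⟨Sum.inr (Sum.inl (e, b)), rfl⟩, by
      intro h
      exact hneq e (congrArg Prod.fst (Sum.inl.inj h))⟩
  have a3 : ∀ ω ∈ Cv, H.Adj (Sum.inl (ω, true)) (Sum.inl (ω, false)) := fun ω hω =>
    (hadj _ _).2 ⟨⟨Sum.inr (Sum.inr ⟨ω, hω⟩), rfl⟩, by simp⟩
  have b1 : ∀ e k b, near H (Sum.inr (e, k)) (Sum.inl (src e, b)) ∧
      near H (Sum.inr (e, k)) (Sum.inl (tgt e, b)) := by
    intro e k b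
    have c1 : near H (Sum.inr (e, k)) (Sum.inl (ctr e, b)) := by
      cases b
      · exact Or.inr ⟨_, a1 e k, a3 _ (hC e)⟩
      · exact Or.inl (a1 e k)
    have c2 : near H (Sum.inr (e, k)) (Sum.inl (oth e, b)) := Or.inr ⟨_, a1 e k, a2 e b⟩
    rcases hco e with h | h
    · rw [h.1] at c1; rw [h.2] at c2; exact ⟨c1, c2⟩
    · rw [h.1] at c1; rw [h.2] at c2; exact ⟨c2, c1⟩
  refine ⟨H, ?_, ?_, ?_⟩
  · -- edges of `H` are short in `G`
    have key : ∀ z, ∀ u v, φ z = s(u, v) → near (gad src tgt M) u v := by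
      intro z u v h
      rcases z with x | y | ω
      · simp only [φ] at h
        have h0 : near (gad src tgt M) (Sum.inr x) (Sum.inl (ctr x.1, true)) :=
          Or.inl (hctr x.1)
        rcases Sym2.eq_iff.1 h with ⟨h1, h2⟩ | ⟨h1, h2⟩
        · rw [← h1, ← h2]; exact h0
        · rw [← h1, ← h2]; exact near_symm h0
      · simp only [φ] at h
        have h0 : near (gad src tgt M) (Sum.inl (ctr y.1, true)) (Sum.inl (oth y.1, y.2)) :=
          Or.inr ⟨Sum.inr (y.1, ⟨0, hM⟩), hctr y.1, hoth y.1⟩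
        rcases Sym2.eq_iff.1 h with ⟨h1, h2⟩ | ⟨h1, h2⟩
        · rw [← h1, ← h2]; exact h0
        · rw [← h1, ← h2]; exact near_symm h0
      · simp only [φ] at h
        obtain ⟨e, he⟩ := hC' ω.1 ω.2
        have h0 : near (gad src tgt M) (Sum.inl (ω.1, true)) (Sum.inl (ω.1, false)) :=
          Or.inr ⟨Sum.inr (e, ⟨0, hM⟩), he, he⟩
        rcases Sym2.eq_iff.1 h with ⟨h1, h2⟩ | ⟨h1, h2⟩
        · rw [← h1, ← h2]; exact h0
        · rw [← h1, ← h2]; exact near_symm h0
    intro u v h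
    obtain ⟨⟨z, hz⟩, -⟩ := (hadj u v).1 h
    exact key z u v hz
  · have key : ∀ (c : Ω × Bool) (x : E × Fin M), (c.1 = src x.1 ∨ c.1 = tgt x.1) →
        near H (Sum.inr x) (Sum.inl c) := by
      rintro ⟨ω, b⟩ ⟨e, k⟩ h
      simp only at h
      rcases h with h | h
      · rw [h]; exact (b1 e k b).1
      · rw [h]; exact (b1 e k b).2
    rintro (c | x) (c' | x') h
    · exact h.elim
    · exact near_symm (key c x' h)
    · exact key c' x h
    · exact h.elim
  · calc H.edgeSet.ncard ≤ (Set.range φ).ncard := by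
          refine Set.ncard_le_ncard ?_ (Set.finite_range φ)
          simp only [H, SimpleGraph.edgeSet_fromEdgeSet]
          exact Set.diff_subset
      _ ≤ Fintype.card ((E × Fin M) ⊕ ((E × Bool) ⊕ {ω // ω ∈ Cv})) := by
          rw [← Set.image_univ]
          refine (Set.ncard_image_le Set.finite_univ).trans ?_
          rw [Set.ncard_univ, Nat.card_eq_fintype_card]
      _ = (M + 2) * Fintype.card E + Cv.card := by
          simp only [Fintype.card_sum, Fintype.card_prod, Fintype.card_fin, Fintype.card_bool,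
            Fintype.card_coe]
          ring

end Pool.Agent.H43R3.RW
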