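import Pool.Agent.H43R3.RW.Ball
import Pool.Agent.H43R3.RW.Upper

set_option autoImplicit false

namespace Pool.Agent.H43R3.RW

section

variable {V : Type} {G H : SimpleGraph V}

theorem reachable_of_near (hG : G.Connected) (h : ∀ u v, G.Adj u v → near H u v) :
    H.Connected := by
  have hr : ∀ u v, G.Adj u v → H.Reachable u v := by
    intro u v huv
    rcases h u v huv with h1 | ⟨w, h1, h2⟩
    · exact h1.reachable
    · exact h1.reachable.trans h2.reachable
  have hw : ∀ u v, ∀ _ : G.Walk u v, H.Reachable u v := by
    intro u v p
    induction p with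
    | nil => exact SimpleGraph.Reachable.refl _
    | cons h p ih => exact (hr _ _ h).trans ih
  have hne := hG.nonempty
  refine SimpleGraph.Connected.mk ?_
  intro u v
  obtain ⟨p⟩ := hG.preconnected u v
  exact hw u v p

theorem dist_le_two_mul (hG : G.Connected) (h : ∀ u v, G.Adj u v → near H u v) (u v : V) :
    H.dist u v ≤ 2 * G.dist u v := by
  have hH := reachable_of_near hG h
  have hw : ∀ u v, ∀ p : G.Walk u v, H.dist u v ≤ 2 * p.length := by
    intro u v p
    induction p with
    | nil => simp
    | @cons a b c h' p ih =>
      have h1 : H.dist a b ≤ 2 := by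
        rcases h _ _ h' with h1 | ⟨w, h1, h2⟩
        · have := SimpleGraph.dist_le h1.toWalk
          rw [SimpleGraph.Walk.length_cons, SimpleGraph.Walk.length_nil] at this
          omega
        · have := SimpleGraph.dist_le (SimpleGraph.Walk.cons h1 h2.toWalk)
          rw [SimpleGraph.Walk.length_cons, SimpleGraph.Walk.length_cons,
            SimpleGraph.Walk.length_nil] at this
          omega
      have h2 := hH.dist_triangle (u := a) (v := b) (w := c)
      rw [SimpleGraph.Walk.length_cons]
      omega
  obtain ⟨p, hp⟩ := hG.exists_walk_length_eq_dist u v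
  rw [← hp]
  exact hw u v p

theorem near_of_dist (hG : G.Connected) {u v : V} (hne : u ≠ v) (h : G.dist u v ≤ 2) :
    near G u v := by
  obtain ⟨p, hp⟩ := hG.exists_walk_length_eq_dist u v
  rw [← hp] at h
  cases p with
  | nil => exact absurd rfl hne
  | cons h1 q =>
    cases q with
    | nil => exact Or.inl h1
    | cons h2 q' =>
      cases q' with
      | nil => exact Or.inr ⟨_, h1, h2⟩
      | cons h3 q'' =>
        simp only [SimpleGraph.Walk.length_cons] at h
        omega

end

section

variable {V W : Type} (e : V ≃ W) (G : SimpleGraph V)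

theorem conn_comap (hG : G.Connected) : (G.comap e.symm).Connected :=
  (SimpleGraph.Iso.connected_iff (SimpleGraph.Iso.comap e.symm G)).2 hG

theorem dist_comap (hG : G.Connected) (u v : W) :
    (G.comap e.symm).dist u v = G.dist (e.symm u) (e.symm v) := by
  apply le_antisymm
  · have := dist_map_le (G := G) (G' := G.comap e.symm) hG e (fun a b h => by
      simpa using h) (e.symm u) (e.symm v)
    simpa using this
  · exact dist_map_le (G := G.comap e.symm) (G' := G) (conn_comap e G hG) e.symm
      (fun a b h => h) u v

theorem degree_comap (v : W) :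
    ((G.comap e.symm).neighborSet v).ncard = (G.neighborSet (e.symm v)).ncard := by
  have : (G.comap e.symm).neighborSet v = e '' (G.neighborSet (e.symm v)) := by
    ext w
    simp only [SimpleGraph.mem_neighborSet, SimpleGraph.comap_adj, Set.mem_image]
    constructor
    · intro h
      exact ⟨e.symm w, h, by simp⟩
    · rintro ⟨x, hx, rfl⟩
      simpa using hx
  rw [this, Set.ncard_image_of_injective _ e.injective]

theorem Bp_comap (hG : G.Connected) (v : W) (r k : ℕ) (F : SimpleGraph (Fin k)) (o : Fin k) :
    Bp (G.comap e.symm) v r k F o ↔ Bp G (e.symm v) r k F o := by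
  refine ball_iso (conn_comap e G hG) hG e.symm (fun a b h => h) ?_ v r ?_ k F o
  · intro a b' h
    exact ⟨e b', by simpa using h, by simp⟩
  · intro a b _ _ h
    exact e.symm.injective h

theorem edges_comap (H : SimpleGraph W) :
    (H.comap e).edgeSet.ncard = H.edgeSet.ncard := by
  have φ := SimpleGraph.Iso.comap e H
  exact Nat.card_congr φ.mapEdgeSet

/-- the rewirings of the transported graph -/
theorem rewire_iff (hG : G.Connected) (N : ℝ) (x : ℝ) :
    (∃ H : SimpleGraph W, H.Connected ∧
          (∀ u v : W, ((H.dist u v : ℝ) ≤ 2 * ((G.comap e.symm).dist u v : ℝ)) ∧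
            (((G.comap e.symm).dist u v : ℝ) ≤ 2 * (H.dist u v : ℝ))) ∧
          x = (H.edgeSet.ncard : ℝ) / N) ↔
      ∃ H : SimpleGraph V, (∀ u v, H.Adj u v → near G u v) ∧ (∀ u v, G.Adj u v → near H u v) ∧
        x = (H.edgeSet.ncard : ℝ) / N := by
  constructor
  · rintro ⟨H, hH, hd, hx⟩
    have hHc : (H.comap e).Connected := by
      have := conn_comap e.symm H hH
      simpa using this
    have hdist : ∀ u v : V, (H.comap e).dist u v = H.dist (e u) (e v) := by
      intro u v
      have := dist_comap e.symm H hH u v
      simpa using this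
    refine ⟨H.comap e, ?_, ?_, ?_⟩
    · intro u v huv
      have huv' : H.Adj (e u) (e v) := huv
      apply near_of_dist hG huv.ne
      have h1 := (hd (e u) (e v)).2
      rw [dist_comap e G hG, SimpleGraph.dist_eq_one_iff_adj.2 huv'] at h1
      simp only [Equiv.symm_apply_apply] at h1
      have h2 : ((G.dist u v : ℕ) : ℝ) ≤ ((2 : ℕ) : ℝ) := by
        push_cast
        push_cast at h1
        linarith
      exact_mod_cast h2
    · intro u v huv
      apply near_of_dist hHc huv.ne
      rw [hdist]
      have h1 := (hd (e u) (e v)).1
      rw [dist_comap e G hG] at h1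
      simp only [Equiv.symm_apply_apply] at h1
      rw [SimpleGraph.dist_eq_one_iff_adj.2 huv] at h1
      have h2 : ((H.dist (e u) (e v) : ℕ) : ℝ) ≤ ((2 : ℕ) : ℝ) := by
        push_cast
        push_cast at h1
        linarith
      exact_mod_cast h2
    · rw [hx, edges_comap]
  · rintro ⟨H, h1, h2, hx⟩
    have hH := reachable_of_near hG h2
    refine ⟨H.comap e.symm, conn_comap e H hH, ?_, ?_⟩
    · intro u v
      rw [dist_comap e H hH, dist_comap e G hG]
      constructor
      · exact_mod_cast dist_le_two_mul hG h2 _ _
      · exact_mod_cast dist_le_two_mul hH h1 _ _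
    · rw [hx, edges_comap e.symm H]

end

end Pool.Agent.H43R3.RW
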